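import Pool.Agent.GK71.Cov

/-!
# The states of the general exchange process

`Lc` are the cells of the old rows, `pr i v` is the private row of the cell of the pure row `i` in
the column `v`.
-/

open Finset

set_option autoImplicit false
set_option linter.unusedSectionVars false

namespace Pool.Agent.GK71

open Pool.Agent.Rl45

variable {R V S ι : Type*} [Fintype R] [DecidableEq R] [Fintype V] [DecidableEq V]
  [Fintype S] [DecidableEq S] [DecidableEq ι]

/-- The array, the old cells and the pure rows with private cells. -/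
structure Ctx (a : R → V → S) (Lc : Finset (R × V)) (pr : ι → V → R) : Prop where
  lat : ∀ r, Function.Injective (a r)
  sec : ∀ i v v', a (pr i v) v = a (pr i v') v' → v = v'
  inj : ∀ i v i' v', pr i v = pr i' v' → i = i' ∧ v = v'
  prL : ∀ i v, ∀ e ∈ Lc, e.1 ≠ pr i v

/-- The cells of a set of pure rows. -/
def prs (pr : ι → V → R) (J : Finset ι) : Finset (R × V) := J.biUnion fun i => cells (pr i)

/-- A state: `C` covered cells, `H` uncovered cells, `E` the falsely named uncovered cells with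
partners `par`, `UU` the used pure rows, `QQ` the pool, `RR` the reserve. -/
structure Sta (a : R → V → S) (Lc : Finset (R × V)) (pr : ι → V → R) (M : Finset ι) (N D : ℕ)
    (UU QQ RR : Finset ι) (C H E : Finset (R × V)) (nm : R × V → S) (par : R × V → ι) : Prop where
  cov : Cov a N C
  dj : Disjoint C H
  un : C ∪ H = Lc ∪ prs pr UU
  col : ∀ v, (H.filter fun e => e.2 = v).card = D
  deg : ∀ y, (H.filter fun e => nm e = y).card ≤ D
  lat : ∀ e ∈ H, ∀ e' ∈ H, e.1 = e'.1 → nm e = nm e' → e = e'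
  nmE : ∀ e, e ∉ E → nm e = sm a e
  EH : E ⊆ H
  EL : E ⊆ Lc
  parM : ∀ e ∈ E, par e ∈ M
  parU : ∀ e ∈ E, par e ∉ UU ∪ QQ ∪ RR
  parS : ∀ e ∈ E, ∀ v, a (pr (par e) v) v ≠ sm a e
  parI : ∀ e ∈ E, ∀ e' ∈ E, par e = par e' → e = e'
  UM : UU ⊆ M
  QM : QQ ⊆ M
  RM : RR ⊆ M
  UQ : Disjoint UU QQ
  UR : Disjoint UU RR
  QR : Disjoint QQ RR

variable {a : R → V → S} {Lc : Finset (R × V)} {pr : ι → V → R} {M : Finset ι} {N D : ℕ}
  {UU QQ RR J : Finset ι} {C H E : Finset (R × V)} {nm : R × V → S} {par : R × V → ι}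

theorem mem_prs {e : R × V} : e ∈ prs pr J ↔ ∃ i ∈ J, pr i e.2 = e.1 := by
  unfold prs
  rw [mem_biUnion]
  constructor
  · rintro ⟨i, hi, h⟩
    exact ⟨i, hi, mem_cells.1 h⟩
  · rintro ⟨i, hi, h⟩
    exact ⟨i, hi, mem_cells.2 h⟩

theorem prs_insert (i : ι) : prs pr (insert i J) = cells (pr i) ∪ prs pr J := by
  unfold prs
  rw [biUnion_insert]

theorem prs_union (J J' : Finset ι) : prs pr (J ∪ J') = prs pr J ∪ prs pr J' := by
  ext e
  rw [mem_union, mem_prs, mem_prs, mem_prs]
  constructor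
  · rintro ⟨i, hi, h⟩
    rcases mem_union.1 hi with hi | hi
    · exact Or.inl ⟨i, hi, h⟩
    · exact Or.inr ⟨i, hi, h⟩
  · rintro (⟨i, hi, h⟩ | ⟨i, hi, h⟩)
    · exact ⟨i, mem_union_left _ hi, h⟩
    · exact ⟨i, mem_union_right _ hi, h⟩

theorem Ctx.sec_pr (hc : Ctx a Lc pr) (i : ι) : Sec a (cells (pr i)) :=
  sec_cells (fun v v' h => (hc.inj i v i v' h).2) (hc.sec i)

/-- A private row contains only one of the cells that are considered. -/
theorem Ctx.row (hc : Ctx a Lc pr) {i : ι} {e e' : R × V} (he : pr i e.2 = e.1)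
    (he' : e' ∈ Lc ∪ prs pr J) (h : e'.1 = e.1) : e' = e ∧ i ∈ J := by
  rcases mem_union.1 he' with h1 | h1
  · exact absurd (h.trans he.symm) (hc.prL i e.2 e' h1)
  · obtain ⟨i', hi', h2⟩ := mem_prs.1 h1
    obtain ⟨h3, h4⟩ := hc.inj i' e'.2 i e.2 (h2.trans (h.trans he.symm))
    exact ⟨Prod.ext h h4, h3 ▸ hi'⟩

theorem Ctx.col_prs (hc : Ctx a Lc pr) (J : Finset ι) (v : V) :
    ((prs pr J).filter fun e => e.2 = v).card = J.card := by
  rw [← card_image_of_injective J (f := fun i => (pr i v, v))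
    (fun i i' h => (hc.inj i v i' v (Prod.mk.inj h).1).1)]
  congr 1
  ext e
  rw [mem_filter, mem_prs, mem_image]
  constructor
  · rintro ⟨⟨i, hi, h⟩, rfl⟩
    exact ⟨i, hi, Prod.ext h rfl⟩
  · rintro ⟨i, hi, rfl⟩
    exact ⟨⟨i, hi, rfl⟩, rfl⟩

/-- the number of cells with symbol `y` in a set of pure rows -/
theorem Ctx.sym_prs (hc : Ctx a Lc pr) (J : Finset ι) (y : S) :
    ((prs pr J).filter fun e => sm a e = y).card ≤
      (J.filter fun i => ∃ v, a (pr i v) v = y).card := by
  classical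
  have h1 : ∀ e ∈ (prs pr J).filter (fun e => sm a e = y), ∃ i ∈ J, pr i e.2 = e.1 := by
    intro e he
    exact mem_prs.1 (mem_filter.1 he).1
  rcases J.eq_empty_or_nonempty with hJ | ⟨j₀, hj₀⟩
  · subst hJ
    rw [Nat.le_iff_lt_or_eq]
    right
    rw [filter_empty, card_empty, card_eq_zero, eq_empty_iff_forall_notMem]
    intro e he
    obtain ⟨i, hi, -⟩ := h1 e he
    exact notMem_empty i hi
  refine card_le_card_of_injOn
    (fun e => if h : ∃ i ∈ J, pr i e.2 = e.1 then h.choose else j₀) ?_ ?_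
  · intro e he
    have h2 := h1 e (mem_coe.1 he)
    have h3 := h2.choose_spec
    simp only [dif_pos h2]
    rw [mem_coe, mem_filter]
    refine ⟨h3.1, e.2, ?_⟩
    rw [h3.2]
    exact (mem_filter.1 (mem_coe.1 he)).2
  · intro e he e' he' h
    have h2 := h1 e (mem_coe.1 he)
    have h2' := h1 e' (mem_coe.1 he')
    have h3 := h2.choose_spec
    have h3' := h2'.choose_spec
    simp only [dif_pos h2, dif_pos h2'] at h
    rw [← h] at h3'
    have h4 : a (pr h2.choose e.2) e.2 = a (pr h2.choose e'.2) e'.2 := by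
      rw [h3.2, h3'.2]
      exact (mem_filter.1 (mem_coe.1 he)).2.trans (mem_filter.1 (mem_coe.1 he')).2.symm
    have h5 := hc.sec _ _ _ h4
    refine Prod.ext ?_ h5
    rw [← h3.2, ← h3'.2]
    exact congrArg _ h5

theorem Sta.notMem_C (hc : Ctx a Lc pr) (h : Sta a Lc pr M N D UU QQ RR C H E nm par) {i : ι}
    (hi : i ∉ UU) {e : R × V} (he : pr i e.2 = e.1) : e ∉ C := fun h1 =>
  hi (hc.row he (h.un ▸ mem_union_left _ h1) rfl).2

theorem Sta.notMem_H (hc : Ctx a Lc pr) (h : Sta a Lc pr M N D UU QQ RR C H E nm par) {i : ι}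
    (hi : i ∉ UU) {e : R × V} (he : pr i e.2 = e.1) : e ∉ H := fun h1 =>
  hi (hc.row he (h.un ▸ mem_union_right _ h1) rfl).2

theorem Sta.count (hc : Ctx a Lc pr) (h : Sta a Lc pr M N D UU QQ RR C H E nm par) (v : V) :
    N + D = (Lc.filter fun e => e.2 = v).card + UU.card := by
  have h1 : ((C ∪ H).filter fun e => e.2 = v).card = N + D := by
    rw [filter_union, card_union_of_disjoint (disjoint_filter_filter h.dj), h.cov.col, h.col]
  rw [← h1, h.un, filter_union, card_union_of_disjoint, hc.col_prs]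
  refine disjoint_filter_filter ?_
  rw [disjoint_left]
  intro e he he'
  obtain ⟨i, -, hi⟩ := mem_prs.1 he'
  exact hc.prL i e.2 e he hi.symm

end Pool.Agent.GK71
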