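import Pool.Agent.GK71.Xch
import Pool.Agent.V98.Driver

/-!
# The transitions of the driver
-/

open Finset

set_option autoImplicit false
set_option linter.unusedSectionVars false

namespace Pool.Agent.GK71

open Pool.Agent.Rl45 Pool.Agent.V98 Pool.Agent.FZ86

variable {R V S ι : Type*} [Fintype R] [DecidableEq R] [Fintype V] [DecidableEq V]
  [Fintype S] [DecidableEq S] [DecidableEq ι]

variable {a : R → V → S} {Lc : Finset (R × V)} {pr : ι → V → R} {M : Finset ι} {P : Finset S}
  {R₀ : ℕ} {x : Dt R V S ι}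

theorem miss_erase {b : ι → V → S} {Q : Finset ι} {z : S} (j : ι) :
    (miss b Q z).card ≤ (miss b (Q.erase j) z).card + 1 := by
  have h1 : (miss b Q z).erase j ⊆ miss b (Q.erase j) z := by
    intro i hi
    rw [mem_erase, mem_miss] at hi
    rw [mem_miss, mem_erase]
    exact ⟨⟨hi.1, hi.2.1⟩, hi.2.2⟩
  have h2 := card_le_card h1
  have h3 := pred_card_le_card_erase (s := miss b Q z) (a := j)
  omega

theorem prL_cells (hc : Ctx a Lc pr) {j : ι} {e q : R × V} (he : e ∈ Lc)
    (hq : q ∈ cells (pr j)) : q.1 ≠ e.1 := fun h =>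
  hc.prL j q.2 e he (h.symm.trans (mem_cells.1 hq).symm)

theorem release_inter (hc : Ctx a Lc pr) {H : Finset (R × V)} (j : ι) :
    (H ∪ cells (pr j)) ∩ Lc = H ∩ Lc := by
  ext q
  rw [mem_inter, mem_inter, mem_union]
  constructor
  · rintro ⟨h1 | h1, h2⟩
    · exact ⟨h1, h2⟩
    · exact absurd rfl (prL_cells hc h2 h1)
  · rintro ⟨h1, h2⟩
    exact ⟨Or.inl h1, h2⟩

/-- The exchange for extended states. -/
theorem ext_exch (hc : Ctx a Lc pr) (r : ℕ) {i : ι} (h : Ext a Lc pr M P (R₀ + 3) r x)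
    (hi : i ∈ x.QQ) (h3 : 3 < x.QQ.card) (hs : ¬ Stuck a Lc pr x.D x.H x.nm x.W i) :
    ∃ y : Dt R V S ι, Ext a Lc pr M P R₀ r y ∧ y.H ∩ Lc ⊆ x.H ∩ Lc ∧
      (y.H ∩ Lc).card < (x.H ∩ Lc).card ∧ (∀ e ∈ y.H ∩ Lc, y.nm e = x.nm e) ∧ y.W = x.W ∧
      y.E ⊆ x.E ∧ x.QQ.card ≤ y.QQ.card + 3 := by
  classical
  unfold Stuck NoEx at hs
  push Not at hs
  obtain ⟨C0, hC0, hCS, e0, he0, he0'⟩ := hs
  have he0L : e0 ∈ Lc := by
    by_contra hL
    exact he0' (mem_sdiff.2 ⟨hC0 he0, hL⟩)
  obtain ⟨N', D', UU', QQ', C', H', hS, hD, hslk, hQ, hQc, hHL, hnm⟩ :=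
    h.sta.exchange hc h.nE h.slk hi (h.qW i hi) hC0 hCS h3 (fun z hz => by
      have := h.pool z hz
      unfold pb at this
      omega)
  refine ⟨⟨N', D', UU', QQ', x.RR, C', H', x.E \ C0, nmo a x.nm (x.E \ C0), x.par, x.W⟩,
    ⟨hS, h.PW, fun j hj => h.qW j (hQ hj), hslk, ?_, ?_, h.res, h.nD.trans hD, h.Wn⟩,
    ?_, ?_, hnm, rfl, sdiff_subset, hQc⟩
  · intro e he
    change nmo a x.nm (x.E \ C0) e ∈ x.W
    rw [nmo_of_mem he]
    exact h.nE e (mem_sdiff.1 he).1
  · intro z hz
    have h1 := h.pool z hz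
    have h2 : (miss (pb a pr) x.QQ z).card ≤ (miss (pb a pr) QQ' z).card + (x.QQ \ QQ').card := by
      refine (card_le_card ?_).trans (card_union_le _ _)
      intro j hj
      rw [mem_miss] at hj
      rw [mem_union, mem_miss, mem_sdiff]
      by_cases hjQ : j ∈ QQ'
      · exact Or.inl ⟨hjQ, hj.2⟩
      · exact Or.inr ⟨hj.1, hjQ⟩
    have h4 := card_sdiff_add_card_eq_card hQ
    change R₀ < (miss (pb a pr) QQ' z).card
    omega
  · change H' ∩ Lc ⊆ x.H ∩ Lc
    rw [hHL]
    exact inter_subset_inter_right sdiff_subset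
  · change (H' ∩ Lc).card < (x.H ∩ Lc).card
    rw [hHL]
    refine card_lt_card ⟨inter_subset_inter_right sdiff_subset, ?_⟩
    intro h5
    have h6 := h5 (mem_inter.2 ⟨hC0 he0, he0L⟩)
    exact (mem_sdiff.1 (mem_inter.1 h6).1).2 he0

/-- The release of a row that misses a symbol. -/
theorem ext_row {ρ r : ℕ} (h : Ext a Lc pr M P ρ r x) {z : S} (hz : z ∉ P) (n : ℕ)
    (hn : n ≤ ρ + 1) (hn' : n ≤ r) :
    n ≤ (miss (pb a pr) (x.QQ ∪ x.RR) z).card := by
  by_cases hzW : z ∈ x.W
  · exact hn'.trans ((h.res z hzW hz).trans (card_le_card (miss_mono subset_union_right z)))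
  · have h1 := h.pool z hzW
    have h2 := card_le_card (miss_mono (b := pb a pr) (z := z)
      (subset_union_left (s₁ := x.QQ) (s₂ := x.RR)))
    omega

theorem ext_name (hc : Ctx a Lc pr) : HNm a Lc pr M P R₀ := by
  classical
  intro x r e z h he heW hzW hzP hze
  have heH := (mem_inter.1 he).1
  have heL := (mem_inter.1 he).2
  have heE : e ∉ x.E := fun h1 => heW (h.nE e h1)
  have hsm : x.nm e = sm a e := h.sta.nmE e heE
  -- the released row
  have h1 : 0 < (miss (pb a pr) x.RR z).card := by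
    have := h.res z hzW hzP
    omega
  obtain ⟨j0, hj0⟩ := card_pos.1 h1
  rw [mem_miss] at hj0
  have hj0Q : j0 ∉ x.QQ := fun h2 => disjoint_left.1 h.sta.QR h2 hj0.1
  have hj0U : j0 ∉ x.UU := fun h2 => disjoint_left.1 h.sta.UR h2 hj0.1
  have hrel := h.sta.release hc (mem_union_right _ hj0.1)
  rw [erase_eq_of_notMem hj0Q] at hrel
  -- the partner
  have h2 : 0 < (miss (pb a pr) x.QQ (x.nm e)).card := by
    have := h.pool _ heW
    omega
  obtain ⟨j, hj⟩ := card_pos.1 h2
  rw [mem_miss] at hj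
  have hjR : j ∉ x.RR.erase j0 := fun h3 =>
    disjoint_left.1 h.sta.QR hj.1 (mem_erase.1 h3).2
  have hdeg := h.sta.release_deg hc hj0U
  have h0 : (if ∃ v, a (pr j0 v) v = z then 1 else 0) = 0 := by
    rw [if_neg]
    rintro ⟨v, hv⟩
    exact hj0.2 v hv
  have hname := hrel.name (mem_union_left _ heH) heL heE (z := z) (by
      intro e' he' h3
      rcases mem_union.1 he' with h4 | h4
      · exact hze e' h4 h3
      · exact absurd h3 (prL_cells hc heL h4)) (by
      have h3 := hdeg z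
      have h4 := h.sta.deg z
      omega) (mem_union_left _ hj.1) (by
      intro v hv
      exact hj.2 v (hv.trans hsm.symm))
  rw [erase_eq_of_notMem hjR] at hname
  refine ⟨⟨x.N, x.D + 1, insert j0 x.UU, x.QQ.erase j, x.RR.erase j0, x.C, x.H ∪ cells (pr j0),
    insert e x.E, Function.update x.nm e z, Function.update x.par e j, x.W⟩,
    ⟨hname, h.PW, fun i hi => h.qW i (mem_erase.1 hi).2, ?_, ?_, ?_, ?_, ?_, h.Wn⟩, ?_, rfl, rfl,
    ?_⟩
  · intro y hy
    change ((x.H ∪ cells (pr j0)).filter fun q => Function.update x.nm e z q = y).card < x.D + 1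
    have h3 := update_deg (H := x.H ∪ cells (pr j0)) (nm := x.nm) (e := e) (z := z) y
    rw [if_neg (fun h4 : y = z => hy (by rw [h4]; exact hzW))] at h3
    have h4 := hdeg y
    have h5 := h.slk y hy
    have h6 : (if ∃ v, a (pr j0 v) v = y then 1 else 0) ≤ 1 := by split_ifs <;> omega
    omega
  · intro q hq
    change Function.update x.nm e z q ∈ x.W
    by_cases hqe : q = e
    · rw [hqe, Function.update_self]
      exact hzW
    · rw [Function.update_of_ne hqe]
      exact h.nE q (mem_of_mem_insert_of_ne hq hqe)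
  · intro z' hz'
    change R₀ < (miss (pb a pr) (x.QQ.erase j) z').card
    have h3 := h.pool z' hz'
    have h4 := miss_erase (b := pb a pr) (Q := x.QQ) (z := z') j
    omega
  · intro z' hz' hz'P
    change r ≤ (miss (pb a pr) (x.RR.erase j0) z').card
    have h3 := h.res z' hz' hz'P
    have h4 := miss_erase (b := pb a pr) (Q := x.RR) (z := z') j0
    omega
  · change Fintype.card V ≤ x.D + 1
    exact h.nD.trans (Nat.le_succ _)
  · change (x.H ∪ cells (pr j0)) ∩ Lc = x.H ∩ Lc
    exact release_inter hc j0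
  · change x.QQ.card ≤ (x.QQ.erase j).card + 1
    have := pred_card_le_card_erase (s := x.QQ) (a := j)
    omega

/-- the degrees after the swap of two cells -/
theorem insert_deg {H : Finset (R × V)} {nm : R × V → S} {e e' : R × V} (y : S) :
    ((insert e' (H.erase e)).filter fun q => nm q = y).card ≤
      (H.filter fun q => nm q = y).card + if y = nm e' then 1 else 0 := by
  have h1 : ((insert e' (H.erase e)).filter fun q => nm q = y) ⊆
      (H.filter fun q => nm q = y) ∪ (if y = nm e' then {e'} else ∅) := by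
    intro q hq
    rw [mem_filter, mem_insert, mem_erase] at hq
    rw [mem_union, mem_filter]
    rcases hq.1 with h2 | h2
    · right
      rw [if_pos (by rw [← hq.2, h2]), h2]
      exact mem_singleton_self e'
    · exact Or.inl ⟨h2.2, hq.2⟩
  refine (card_le_card h1).trans ((card_union_le _ _).trans (Nat.add_le_add_left ?_ _))
  split_ifs
  · rw [card_singleton]
  · rw [card_empty]

theorem ext_swap (hc : Ctx a Lc pr) : HSw a Lc pr M P R₀ := by
  classical
  intro x r N' e e' X h he heE heP he'C he'L hcol he'P hXC he'X hX hN hC hXr hlat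
  have heH := (mem_inter.1 he).1
  have heL := (mem_inter.1 he).2
  have hsm : x.nm e = sm a e := h.sta.nmE e heE
  have he'H : e' ∉ x.H := fun h1 => disjoint_left.1 h.sta.dj he'C h1
  have he'E : e' ∉ x.E := fun h1 => he'H (h.sta.EH h1)
  have hsm' : x.nm e' = sm a e' := h.sta.nmE e' he'E
  -- the released row
  have h1 := ext_row h he'P 1 (by omega) (by omega)
  obtain ⟨j0, hj0⟩ := card_pos.1 h1
  rw [mem_miss] at hj0
  have hj0U : j0 ∉ x.UU := by
    intro h2
    rcases mem_union.1 hj0.1 with h3 | h3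
    · exact disjoint_left.1 h.sta.UQ h2 h3
    · exact disjoint_left.1 h.sta.UR h2 h3
  have hrel := h.sta.release hc hj0.1
  -- the partner
  have h2 : 0 < ((miss (pb a pr) (x.QQ ∪ x.RR) (x.nm e)).erase j0).card := by
    have h3 := ext_row h heP 2 (by omega) (by omega)
    have h4 := pred_card_le_card_erase (s := miss (pb a pr) (x.QQ ∪ x.RR) (x.nm e)) (a := j0)
    omega
  obtain ⟨j, hj⟩ := card_pos.1 h2
  rw [mem_erase, mem_miss] at hj
  have hjQR : j ∈ x.QQ.erase j0 ∪ x.RR.erase j0 := by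
    rw [mem_union, mem_erase, mem_erase]
    rcases mem_union.1 hj.2.1 with h3 | h3
    · exact Or.inl ⟨hj.1, h3⟩
    · exact Or.inr ⟨hj.1, h3⟩
  have hdeg := h.sta.release_deg hc hj0U
  have h0 : (if ∃ v, a (pr j0 v) v = sm a e' then 1 else 0) = 0 := by
    rw [if_neg]
    rintro ⟨v, hv⟩
    exact hj0.2 v hv
  have hsw := hrel.swap hc (mem_union_left _ heH) heL heE he'C he'L hcol hX hXC he'X hN hC hXr
    (by
      intro q hq h3 h4
      rcases mem_union.1 hq with h5 | h5
      · exact hlat q h5 h3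
      · exact absurd h3 (prL_cells hc he'L h5)) (by
      have h3 := hdeg (sm a e')
      have h4 := h.sta.deg (sm a e')
      omega) hjQR (by
      intro v hv
      exact hj.2.2 v (hv.trans hsm.symm))
  refine ⟨⟨x.N + 1, x.D + 1, insert j (insert j0 x.UU), (x.QQ.erase j0).erase j,
    (x.RR.erase j0).erase j, insert e (x.C.erase e') ∪ cells (pr j),
    insert e' ((x.H ∪ cells (pr j0)).erase e), x.E, x.nm, x.par, x.W⟩,
    ⟨hsw, h.PW, fun i hi => h.qW i (mem_erase.1 (mem_erase.1 hi).2).2, ?_, h.nE, ?_, ?_, ?_,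
    h.Wn⟩, ?_, rfl, rfl, rfl, ?_⟩
  · intro y hy
    change ((insert e' ((x.H ∪ cells (pr j0)).erase e)).filter fun q => x.nm q = y).card <
      x.D + 1
    have h3 := insert_deg (H := x.H ∪ cells (pr j0)) (nm := x.nm) (e := e) (e' := e') y
    have h4 := hdeg y
    have h5 := h.slk y hy
    have h6 : (if ∃ v, a (pr j0 v) v = y then 1 else 0) ≤ 1 := by split_ifs <;> omega
    by_cases hye : y = sm a e'
    · rw [if_pos (hye.trans hsm'.symm)] at h3
      rw [← hye] at h0
      omega
    · rw [if_neg (fun h7 => hye (h7.trans hsm'))] at h3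
      omega
  · intro z' hz'
    change R₀ < (miss (pb a pr) ((x.QQ.erase j0).erase j) z').card
    have h3 := h.pool z' hz'
    have h4 := miss_erase (b := pb a pr) (Q := x.QQ) (z := z') j0
    have h5 := miss_erase (b := pb a pr) (Q := x.QQ.erase j0) (z := z') j
    omega
  · intro z' hz' hz'P
    change r ≤ (miss (pb a pr) ((x.RR.erase j0).erase j) z').card
    have h3 := h.res z' hz' hz'P
    have h4 := miss_erase (b := pb a pr) (Q := x.RR) (z := z') j0
    have h5 := miss_erase (b := pb a pr) (Q := x.RR.erase j0) (z := z') j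
    omega
  · change Fintype.card V ≤ x.D + 1
    exact h.nD.trans (Nat.le_succ _)
  · change (insert e' ((x.H ∪ cells (pr j0)).erase e)) ∩ Lc = insert e' ((x.H ∩ Lc).erase e)
    have h3 := release_inter hc (H := x.H) j0
    ext q
    have h4 := Finset.ext_iff.1 h3 q
    simp only [mem_inter, mem_insert, mem_erase, mem_union] at h4 ⊢
    constructor
    · rintro ⟨h5 | h5, h6⟩
      · exact Or.inl h5
      · exact Or.inr ⟨h5.1, h4.1 ⟨h5.2, h6⟩⟩
    · rintro (h5 | h5)
      · rw [h5]
        exact ⟨Or.inl rfl, he'L⟩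
      · exact ⟨Or.inr ⟨h5.1, Or.inl h5.2.1⟩, h5.2.2⟩
  · change x.QQ.card ≤ ((x.QQ.erase j0).erase j).card + 2
    have h3 := pred_card_le_card_erase (s := x.QQ) (a := j0)
    have h4 := pred_card_le_card_erase (s := x.QQ.erase j0) (a := j)
    omega

end Pool.Agent.GK71
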