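import Pool.Agent.Rl45.Portion
import Pool.Agent.Rl45.State

/-!
# Sets of cells that are unions of disjoint transversals
-/

open Finset

set_option autoImplicit false
set_option linter.unusedSectionVars false

namespace Pool.Agent.GK71

open Pool.Agent.Rl45

variable {R V S : Type*} [Fintype R] [DecidableEq R] [Fintype V] [DecidableEq V]
  [Fintype S] [DecidableEq S]

/-- A transversal, as a set of cells. -/
structure Sec (a : R → V → S) (X : Finset (R × V)) : Prop where
  col : ∀ v, (X.filter fun e => e.2 = v).card = 1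
  row : ∀ e ∈ X, ∀ e' ∈ X, e.1 = e'.1 → e = e'
  sym : ∀ e ∈ X, ∀ e' ∈ X, sm a e = sm a e' → e = e'

/-- `C` is the union of `N` pairwise disjoint transversals. -/
def Cov (a : R → V → S) (N : ℕ) (C : Finset (R × V)) : Prop :=
  ∃ T : Fin N → V → R, (∀ i, Function.Injective (T i)) ∧
    (∀ i v v', a (T i v) v = a (T i v') v' → v = v') ∧
    (∀ v i j, T i v = T j v → i = j) ∧ ∀ e, e ∈ C ↔ ∃ i, T i e.2 = e.1

variable {a : R → V → S} {N N' D d : ℕ} {C C' X H F : Finset (R × V)}

/-- the cells of a section -/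
def cells (t : V → R) : Finset (R × V) := Finset.univ.image fun v => (t v, v)

theorem mem_cells {t : V → R} {e : R × V} : e ∈ cells t ↔ t e.2 = e.1 := by
  unfold cells
  rw [mem_image]
  constructor
  · rintro ⟨v, -, rfl⟩
    rfl
  · intro h
    exact ⟨e.2, mem_univ _, Prod.ext h rfl⟩

theorem sec_cells {t : V → R} (h1 : Function.Injective t)
    (h2 : ∀ v v', a (t v) v = a (t v') v' → v = v') : Sec a (cells t) := by
  refine ⟨?_, ?_, ?_⟩
  · intro v
    rw [card_eq_one]
    refine ⟨(t v, v), ?_⟩
    ext e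
    rw [mem_filter, mem_singleton, mem_cells]
    constructor
    · rintro ⟨h3, rfl⟩
      exact Prod.ext h3.symm rfl
    · rintro rfl
      exact ⟨rfl, rfl⟩
  · intro e he e' he' h
    rw [mem_cells] at he he'
    rw [← he, ← he'] at h
    exact Prod.ext (by rw [← he, ← he', h1 h]) (h1 h)
  · intro e he e' he' h
    rw [mem_cells] at he he'
    unfold sm at h
    rw [← he, ← he'] at h
    have h3 := h2 _ _ h
    exact Prod.ext (by rw [← he, ← he', h3]) h3

/-- a section as a function -/
theorem Sec.exists_fun (h : Sec a X) : ∃ t : V → R, Function.Injective t ∧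
    (∀ v v', a (t v) v = a (t v') v' → v = v') ∧ X = cells t := by
  have h1 : ∀ v, ∃ r, (r, v) ∈ X ∧ ∀ r', (r', v) ∈ X → r' = r := by
    intro v
    obtain ⟨e, he⟩ := card_eq_one.1 (h.col v)
    have h2 : e ∈ X.filter fun e => e.2 = v := by
      rw [he]
      exact mem_singleton_self e
    rw [mem_filter] at h2
    refine ⟨e.1, ?_, ?_⟩
    · rw [← h2.2]
      exact h2.1
    · intro r' hr'
      have h3 : (r', v) ∈ X.filter fun e => e.2 = v := mem_filter.2 ⟨hr', rfl⟩
      rw [he, mem_singleton] at h3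
      rw [← h3]
  choose t ht1 ht2 using h1
  refine ⟨t, ?_, ?_, ?_⟩
  · intro v v' h2
    exact congrArg Prod.snd (h.row _ (ht1 v) _ (ht1 v') h2)
  · intro v v' h2
    exact congrArg Prod.snd (h.sym _ (ht1 v) _ (ht1 v') h2)
  · ext e
    rw [mem_cells]
    constructor
    · intro he
      exact (ht2 e.2 e.1 he).symm
    · intro he
      have := ht1 e.2
      rw [he] at this
      exact this

theorem Cov.zero : Cov a 0 (∅ : Finset (R × V)) := by
  refine ⟨fun i => i.elim0, fun i => i.elim0, fun i => i.elim0, fun v i => i.elim0, ?_⟩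
  intro e
  constructor
  · intro h
    exact absurd h (notMem_empty e)
  · rintro ⟨i, -⟩
    exact i.elim0

theorem Cov.union (h : Cov a N C) (h' : Cov a N' C') (hd : Disjoint C C') :
    Cov a (N + N') (C ∪ C') := by
  obtain ⟨T, h1, h2, h3, h4⟩ := h
  obtain ⟨T', h1', h2', h3', h4'⟩ := h'
  have hne : ∀ v i j, T i v ≠ T' j v := by
    intro v i j h5
    have h6 : (T i v, v) ∈ C := (h4 _).2 ⟨i, rfl⟩
    have h7 : (T i v, v) ∈ C' := (h4' _).2 ⟨j, h5.symm⟩
    exact disjoint_left.1 hd h6 h7
  have hl : ∀ i, (Fin.append T T' : Fin (N + N') → V → R) (Fin.castAdd N' i) = T i :=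
    fun i => Fin.append_left T T' i
  have hr : ∀ i, (Fin.append T T' : Fin (N + N') → V → R) (Fin.natAdd N i) = T' i :=
    fun i => Fin.append_right T T' i
  refine ⟨Fin.append T T', ?_, ?_, ?_, ?_⟩
  · intro i
    refine Fin.addCases (fun i => ?_) (fun i => ?_) i
    · rw [hl]
      exact h1 i
    · rw [hr]
      exact h1' i
  · intro i
    refine Fin.addCases (fun i => ?_) (fun i => ?_) i
    · rw [hl]
      exact h2 i
    · rw [hr]
      exact h2' i
  · intro v i j
    refine Fin.addCases (fun i => ?_) (fun i => ?_) i <;>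
      refine Fin.addCases (fun j => ?_) (fun j => ?_) j
    · rw [hl, hl]
      intro h
      rw [h3 v i j h]
    · rw [hl, hr]
      intro h
      exact absurd h (hne v i j)
    · rw [hr, hl]
      intro h
      exact absurd h.symm (hne v j i)
    · rw [hr, hr]
      intro h
      rw [h3' v i j h]
  · intro e
    rw [mem_union, h4, h4']
    constructor
    · rintro (⟨i, hi⟩ | ⟨i, hi⟩)
      · refine ⟨Fin.castAdd N' i, ?_⟩
        rw [hl]
        exact hi
      · refine ⟨Fin.natAdd N i, ?_⟩
        rw [hr]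
        exact hi
    · rintro ⟨i, hi⟩
      revert hi
      refine Fin.addCases (fun i => ?_) (fun i => ?_) i
      · rw [hl]
        intro hi
        exact Or.inl ⟨i, hi⟩
      · rw [hr]
        intro hi
        exact Or.inr ⟨i, hi⟩

theorem Sec.cov (h : Sec a X) : Cov a 1 X := by
  obtain ⟨t, h1, h2, rfl⟩ := h.exists_fun
  refine ⟨fun _ => t, fun _ => h1, fun _ => h2, fun v i j _ => Subsingleton.elim i j, ?_⟩
  intro e
  rw [mem_cells]
  exact ⟨fun h => ⟨0, h⟩, fun ⟨_, h⟩ => h⟩

theorem Cov.add (h : Cov a N C) (hX : Sec a X) (hd : Disjoint C X) : Cov a (N + 1) (C ∪ X) :=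
  h.union hX.cov hd

/-- Removing one transversal. -/
theorem Cov.remove (h : Cov a N C) {e : R × V} (he : e ∈ C) :
    ∃ X N', X ⊆ C ∧ e ∈ X ∧ Sec a X ∧ N = N' + 1 ∧ Cov a N' (C \ X) := by
  obtain ⟨T, h1, h2, h3, h4⟩ := h
  obtain ⟨i, hi⟩ := (h4 e).1 he
  obtain ⟨N', rfl⟩ : ∃ N', N = N' + 1 := by
    rcases N with _ | N'
    · exact i.elim0
    · exact ⟨N', rfl⟩
  refine ⟨cells (T i), N', ?_, mem_cells.2 hi, sec_cells (h1 i) (h2 i), rfl, ?_⟩
  · intro e' he'
    exact (h4 e').2 ⟨i, mem_cells.1 he'⟩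
  · refine ⟨fun j => T (i.succAbove j), fun j => h1 _, fun j => h2 _, ?_, ?_⟩
    · intro v j j' h5
      exact Fin.succAbove_right_injective (h3 v _ _ h5)
    · intro e'
      rw [mem_sdiff, h4, mem_cells]
      constructor
      · rintro ⟨⟨j, hj⟩, h5⟩
        have h6 : j ≠ i := by
          rintro rfl
          exact h5 hj
        obtain ⟨j', hj'⟩ := Fin.exists_succAbove_eq h6
        refine ⟨j', ?_⟩
        change T (i.succAbove j') e'.2 = e'.1
        rw [hj']
        exact hj
      · rintro ⟨j, hj⟩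
        refine ⟨⟨_, hj⟩, ?_⟩
        intro h5
        have h6 := h3 e'.2 _ _ (hj.trans h5.symm)
        exact Fin.succAbove_ne i j h6

theorem Cov.col (h : Cov a N C) (v : V) : (C.filter fun e => e.2 = v).card = N := by
  obtain ⟨T, -, -, h3, h4⟩ := h
  have h5 : (C.filter fun e => e.2 = v) = Finset.univ.image fun i => (T i v, v) := by
    ext e
    rw [mem_filter, mem_image, h4]
    constructor
    · rintro ⟨⟨i, hi⟩, rfl⟩
      exact ⟨i, mem_univ _, Prod.ext hi rfl⟩
    · rintro ⟨i, -, rfl⟩
      exact ⟨⟨i, rfl⟩, rfl⟩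
  rw [h5, card_image_of_injective _ fun i j hij => h3 v i j (Prod.mk.inj hij).1, card_univ,
    Fintype.card_fin]

theorem Cov.sym_le (h : Cov a N C) (y : S) : (C.filter fun e => sm a e = y).card ≤ N := by
  obtain ⟨T, -, h2, -, h4⟩ := h
  have h5 : ∀ e ∈ C.filter (fun e => sm a e = y), ∃ i, T i e.2 = e.1 := by
    intro e he
    exact (h4 e).1 (mem_filter.1 he).1
  rcases N with _ | N
  · rw [Nat.le_zero, card_eq_zero, eq_empty_iff_forall_notMem]
    intro e he
    obtain ⟨i, -⟩ := h5 e he
    exact i.elim0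
  have h6 : (C.filter fun e => sm a e = y).card ≤ (Finset.univ : Finset (Fin (N + 1))).card := by
    classical
    refine card_le_card_of_injOn (fun e => if h : ∃ i, T i e.2 = e.1 then h.choose else 0)
      (fun _ _ => mem_coe.2 (mem_univ _)) ?_
    intro e he e' he' h7
    have h8 := h5 e (mem_coe.1 he)
    have h9 := h5 e' (mem_coe.1 he')
    simp only [dif_pos h8, dif_pos h9] at h7
    have h10 := h8.choose_spec
    have h11 := h9.choose_spec
    rw [← h7] at h11
    have h12 : a (T h8.choose e.2) e.2 = a (T h8.choose e'.2) e'.2 := by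
      rw [h10, h11]
      exact ((mem_filter.1 (mem_coe.1 he)).2).trans ((mem_filter.1 (mem_coe.1 he')).2).symm
    have h13 := h2 _ _ _ h12
    refine Prod.ext ?_ h13
    rw [← h10, ← h11]
    exact congrArg _ h13
  rwa [card_univ, Fintype.card_fin] at h6

theorem Cov.card (h : Cov a N C) : C.card = Fintype.card V * N := by
  rw [card_eq_sum_card_fiberwise (f := Prod.snd) (t := Finset.univ) (fun _ _ => mem_univ _),
    sum_congr rfl fun v _ => h.col v, sum_const, card_univ, smul_eq_mul]

/-- Koenig: cells in distinct rows, `d` in every column, at most `d` with the same symbol. -/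
theorem cov_of_koenig (a : R → V → S) : ∀ (d : ℕ) (F : Finset (R × V)),
    (∀ v, (F.filter fun e => e.2 = v).card = d) →
    (∀ y, (F.filter fun e => sm a e = y).card ≤ d) →
    (∀ e ∈ F, ∀ e' ∈ F, e.1 = e'.1 → e = e') → Cov a d F := by
  intro d
  induction d with
  | zero =>
    intro F hcol _ _
    have : F = ∅ := by
      rw [eq_empty_iff_forall_notMem]
      intro e he
      have h1 := card_eq_zero.1 (hcol e.2)
      exact notMem_empty e (h1 ▸ mem_filter.2 ⟨he, rfl⟩)
    rw [this]
    exact Cov.zero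
  | succ d ih =>
    intro F hcol hsym hrow
    obtain ⟨M, hMF, h1, h2, h3⟩ := exists_peel F (sm a) (d + 1) (Nat.succ_pos d) hcol hsym
    have hM : Sec a M := by
      refine ⟨h1, fun e he e' he' h => hrow e (hMF he) e' (hMF he') h, ?_⟩
      intro e he e' he' h
      exact card_le_one.1 (h2 (sm a e')) e (mem_filter.2 ⟨he, h⟩) e' (mem_filter.2 ⟨he', rfl⟩)
    have hcol' : ∀ v, ((F \ M).filter fun e => e.2 = v).card = d := by
      intro v
      have h4 : (F \ M).filter (fun e => e.2 = v) =
          (F.filter fun e => e.2 = v) \ (M.filter fun e => e.2 = v) := by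
        ext e
        simp only [mem_filter, mem_sdiff]
        tauto
      rw [h4, card_sdiff_of_subset (filter_subset_filter _ hMF), hcol, h1]
      rfl
    have h5 := ih (F \ M) hcol' (fun y => by
      have := h3 y
      rwa [Nat.add_sub_cancel] at this)
      (fun e he e' he' h => hrow e (mem_sdiff.1 he).1 e' (mem_sdiff.1 he').1 h)
    have h6 := h5.add hM sdiff_disjoint
    rwa [sdiff_union_of_subset hMF] at h6

/-- The state that belongs to the covered cells `C` and the uncovered cells `H`. -/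
theorem Cov.st (h : Cov a N C) (hd : Disjoint C H)
    (hcol : ∀ v, (H.filter fun e => e.2 = v).card = D)
    (hsym : ∀ y, (H.filter fun e => sm a e = y).card ≤ D) :
    ∃ T : Fin N → V → R, St a T H D (C ∪ H) := by
  obtain ⟨T, h1, h2, h3, h4⟩ := h
  refine ⟨T, h1, h2, h3, ?_, ?_, hcol, hsym⟩
  · intro e
    rw [mem_union, h4, or_comm]
  · intro i v
    exact disjoint_left.1 hd ((h4 _).2 ⟨i, rfl⟩)

/-- A state without symbol bound in the uncovered cells. -/
theorem Cov.of_st {T : Fin N → V → R} {U : Finset (R × V)} (h : St a T H D U) :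
    Cov a N (U \ H) := by
  refine ⟨T, h.ri, h.si, h.di, ?_⟩
  intro e
  rw [mem_sdiff, h.cov e]
  constructor
  · rintro ⟨h1 | h1, h2⟩
    · exact absurd h1 h2
    · exact h1
  · rintro ⟨i, hi⟩
    refine ⟨Or.inr ⟨i, hi⟩, ?_⟩
    have h3 := h.dj i e.2
    rw [hi] at h3
    exact h3

end Pool.Agent.GK71
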