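import Pool.Agent.GK71.Sta

/-!
# The exchange step with a merged hub
-/

open Finset

set_option autoImplicit false
set_option linter.unusedSectionVars false

namespace Pool.Agent.GK71

open Pool.Agent.Rl45

variable {R V S ι : Type*} [Fintype R] [DecidableEq R] [Fintype V] [DecidableEq V]
  [Fintype S] [DecidableEq S] [DecidableEq ι]

variable {a : R → V → S} {Lc : Finset (R × V)} {pr : ι → V → R} {M : Finset ι} {N D : ℕ}
  {UU QQ RR J : Finset ι} {C H E C0 : Finset (R × V)} {nm : R × V → S} {par : R × V → ι}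

/-- the cells of the row `i` in the columns of `C0` -/
def tin (pr : ι → V → R) (i : ι) (C0 : Finset (R × V)) : Finset (R × V) :=
  (cells (pr i)).filter fun e => ∃ e0 ∈ C0, e0.2 = e.2

/-- the cells of the row `i` outside the columns of `C0` -/
def tout (pr : ι → V → R) (i : ι) (C0 : Finset (R × V)) : Finset (R × V) :=
  (cells (pr i)).filter fun e => ∀ e0 ∈ C0, e0.2 ≠ e.2

theorem mem_tin {i : ι} {e : R × V} :
    e ∈ tin pr i C0 ↔ pr i e.2 = e.1 ∧ ∃ e0 ∈ C0, e0.2 = e.2 := by
  unfold tin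
  rw [mem_filter, mem_cells]

theorem mem_tout {i : ι} {e : R × V} :
    e ∈ tout pr i C0 ↔ pr i e.2 = e.1 ∧ ∀ e0 ∈ C0, e0.2 ≠ e.2 := by
  unfold tout
  rw [mem_filter, mem_cells]

/-- the new covered cells -/
def fam (pr : ι → V → R) (i : ι) (J : Finset ι) (C0 : Finset (R × V)) : Finset (R × V) :=
  C0 ∪ tout pr i C0 ∪ prs pr J

theorem mem_fam {i : ι} {e : R × V} :
    e ∈ fam pr i J C0 ↔ e ∈ C0 ∨ (pr i e.2 = e.1 ∧ ∀ e0 ∈ C0, e0.2 ≠ e.2) ∨
      ∃ i' ∈ J, pr i' e.2 = e.1 := by
  unfold fam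
  rw [mem_union, mem_union, mem_tout, mem_prs, or_assoc]

/-- A base row, further pure rows and uncovered cells form new transversals. -/
theorem cov_fam (hc : Ctx a Lc pr) (h : Sta a Lc pr M N D UU QQ RR C H E nm par) {i : ι}
    (hi : i ∉ UU) (hiJ : i ∉ J) (hJ : Disjoint J UU) (hC0 : C0 ⊆ H)
    (hrb : ∀ e ∈ C0, ∀ e' ∈ C0, e.1 = e'.1 → e = e')
    (htl : ∀ e ∈ C0, ∀ e' ∈ C0, e.2 = e'.2 → e = e')
    (hsym : ∀ y, ((fam pr i J C0).filter fun e => sm a e = y).card ≤ 1 + J.card) :
    Cov a (1 + J.card) (fam pr i J C0) := by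
  classical
  have hH : ∀ e ∈ C0, e ∈ Lc ∪ prs pr UU := fun e he => h.un ▸ mem_union_right _ (hC0 he)
  have hJU : ∀ i' ∈ J, i' ∉ UU := fun i' h1 => disjoint_left.1 hJ h1
  have d1 : Disjoint C0 (tout pr i C0) := by
    rw [disjoint_left]
    intro e he he'
    exact (mem_tout.1 he').2 e he rfl
  have d2 : Disjoint (C0 ∪ tout pr i C0) (prs pr J) := by
    rw [disjoint_left]
    intro e he he'
    obtain ⟨i', hi', h1⟩ := mem_prs.1 he'
    rcases mem_union.1 he with h2 | h2
    · exact hJU i' hi' (hc.row h1 (hH e h2) rfl).2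
    · rw [mem_tout] at h2
      exact hiJ ((hc.inj i e.2 i' e.2 (h2.1.trans h1.symm)).1 ▸ hi')
  refine cov_of_koenig a _ _ ?_ hsym ?_
  · intro v
    unfold fam
    rw [filter_union, card_union_of_disjoint (disjoint_filter_filter d2), hc.col_prs, filter_union,
      card_union_of_disjoint (disjoint_filter_filter d1)]
    congr 1
    by_cases hv : ∃ e ∈ C0, e.2 = v
    · obtain ⟨e, he, rfl⟩ := hv
      have h1 : (C0.filter fun e' => e'.2 = e.2) = {e} := by
        ext e'
        rw [mem_filter, mem_singleton]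
        constructor
        · rintro ⟨h2, h3⟩
          exact htl e' h2 e he h3
        · rintro rfl
          exact ⟨he, rfl⟩
      have h2 : ((tout pr i C0).filter fun e' => e'.2 = e.2) = ∅ := by
        rw [eq_empty_iff_forall_notMem]
        intro e' he'
        rw [mem_filter, mem_tout] at he'
        exact he'.1.2 e he he'.2.symm
      rw [h1, h2, card_singleton, card_empty]
    · push Not at hv
      have h1 : (C0.filter fun e' => e'.2 = v) = ∅ := by
        rw [eq_empty_iff_forall_notMem]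
        intro e' he'
        rw [mem_filter] at he'
        exact hv e' he'.1 he'.2
      have h2 : ((tout pr i C0).filter fun e' => e'.2 = v) = {(pr i v, v)} := by
        ext e'
        rw [mem_filter, mem_tout, mem_singleton]
        constructor
        · rintro ⟨⟨h3, -⟩, rfl⟩
          exact Prod.ext h3.symm rfl
        · rintro rfl
          exact ⟨⟨rfl, hv⟩, rfl⟩
      rw [h1, h2, card_singleton, card_empty]
  · intro e he e' he' h1
    rw [mem_fam] at he he'
    rcases he with he | ⟨he, -⟩ | ⟨i', hi', he⟩ <;>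
      rcases he' with he' | ⟨he', -⟩ | ⟨i'', hi'', he'⟩
    · exact hrb e he e' he' h1
    · exact absurd (hc.row he' (hH e he) h1).2 hi
    · exact absurd (hc.row he' (hH e he) h1).2 (hJU _ hi'')
    · exact absurd (hc.row he (hH e' he') h1.symm).2 hi
    · rw [← he, ← he'] at h1
      have h2 := (hc.inj _ _ _ _ h1).2
      exact Prod.ext (by rw [← he, ← he', h2]) h2
    · rw [← he, ← he'] at h1
      exact absurd ((hc.inj _ _ _ _ h1).1 ▸ hi'') hiJ
    · exact absurd (hc.row he (hH e' he') h1.symm).2 (hJU _ hi')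
    · rw [← he, ← he'] at h1
      exact absurd ((hc.inj _ _ _ _ h1).1 ▸ hi') hiJ
    · rw [← he, ← he'] at h1
      obtain ⟨h2, h3⟩ := hc.inj _ _ _ _ h1
      exact Prod.ext (by rw [← he, ← he', h2, h3]) h3

/-- the names after some false names have been given up -/
def nmo (a : R → V → S) (nm : R × V → S) (E : Finset (R × V)) (e : R × V) : S :=
  if e ∈ E then nm e else sm a e

theorem nmo_of_mem {E : Finset (R × V)} {e : R × V} (h : e ∈ E) : nmo a nm E e = nm e := if_pos h

theorem nmo_of_notMem {E : Finset (R × V)} {e : R × V} (h : e ∉ E) : nmo a nm E e = sm a e :=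
  if_neg h

/-- The new state after an exchange; the bounds for the names are hypotheses. -/
theorem Sta.absorb (hc : Ctx a Lc pr) (h : Sta a Lc pr M N D UU QQ RR C H E nm par) {i : ι}
    (hi : i ∈ QQ ∪ RR) (hJM : J ⊆ M) (hiJ : i ∉ J) (hJ : Disjoint J UU) (hC0 : C0 ⊆ H)
    (hJE : ∀ e ∈ E, e ∉ C0 → par e ∉ J)
    (hrb : ∀ e ∈ C0, ∀ e' ∈ C0, e.1 = e'.1 → e = e')
    (htl : ∀ e ∈ C0, ∀ e' ∈ C0, e.2 = e'.2 → e = e')
    (hsym : ∀ y, ((fam pr i J C0).filter fun e => sm a e = y).card ≤ 1 + J.card)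
    (hdeg : ∀ y, (((H \ C0) ∪ tin pr i C0).filter fun e => nmo a nm (E \ C0) e = y).card ≤ D) :
    Sta a Lc pr M (N + (1 + J.card)) D (insert i (UU ∪ J)) (QQ \ insert i J) (RR \ insert i J)
      (C ∪ fam pr i J C0) ((H \ C0) ∪ tin pr i C0) (E \ C0) (nmo a nm (E \ C0)) par := by
  classical
  have hiM : i ∈ M := by
    rcases mem_union.1 hi with h1 | h1
    · exact h.QM h1
    · exact h.RM h1
  have hiU : i ∉ UU := by
    rcases mem_union.1 hi with h1 | h1
    · exact fun h2 => disjoint_left.1 h.UQ h2 h1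
    · exact fun h2 => disjoint_left.1 h.UR h2 h1
  have hJU : ∀ i' ∈ J, i' ∉ UU := fun i' h1 => disjoint_left.1 hJ h1
  have hH : ∀ e ∈ H, e ∈ Lc ∪ prs pr UU := fun e he => h.un ▸ mem_union_right _ he
  have hnm : ∀ e ∈ H \ C0, nmo a nm (E \ C0) e = nm e := by
    intro e he
    by_cases h1 : e ∈ E
    · exact nmo_of_mem (mem_sdiff.2 ⟨h1, (mem_sdiff.1 he).2⟩)
    · rw [nmo_of_notMem (fun h2 => h1 (mem_sdiff.1 h2).1), h.nmE e h1]
  refine ⟨?_, ?_, ?_, ?_, hdeg, ?_, ?_, ?_, ?_, ?_, ?_, ?_, ?_, ?_, ?_, ?_, ?_, ?_, ?_⟩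
  · refine h.cov.union (cov_fam hc h hiU hiJ hJ hC0 hrb htl hsym) ?_
    rw [disjoint_left]
    intro e he he'
    rcases mem_fam.1 he' with h1 | ⟨h1, -⟩ | ⟨i', hi', h1⟩
    · exact disjoint_left.1 h.dj he (hC0 h1)
    · exact h.notMem_C hc hiU h1 he
    · exact h.notMem_C hc (hJU i' hi') h1 he
  · rw [disjoint_left]
    intro e he he'
    rcases mem_union.1 he' with h2 | h2
    · obtain ⟨h3, h4⟩ := mem_sdiff.1 h2
      rcases mem_union.1 he with he | he
      · exact disjoint_left.1 h.dj he h3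
      · rcases mem_fam.1 he with h1 | ⟨h1, -⟩ | ⟨i', hi', h1⟩
        · exact h4 h1
        · exact h.notMem_H hc hiU h1 h3
        · exact h.notMem_H hc (hJU i' hi') h1 h3
    · obtain ⟨h3, e0, h4, h5⟩ := mem_tin.1 h2
      rcases mem_union.1 he with he | he
      · exact h.notMem_C hc hiU h3 he
      · rcases mem_fam.1 he with h1 | ⟨-, h1⟩ | ⟨i', hi', h1⟩
        · exact h.notMem_H hc hiU h3 (hC0 h1)
        · exact h1 e0 h4 h5
        · exact hiJ ((hc.inj _ _ _ _ (h3.trans h1.symm)).1 ▸ hi')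
  · ext e
    have hun := Finset.ext_iff.1 h.un e
    simp only [mem_union, mem_prs] at hun
    simp only [mem_union, mem_sdiff, mem_prs, mem_insert, mem_fam, mem_tin]
    constructor
    · rintro ((h1 | h1 | ⟨h1, -⟩ | ⟨i', h1, h2⟩) | (⟨h1, -⟩ | ⟨h1, -⟩))
      · rcases hun.1 (Or.inl h1) with h2 | ⟨i', h2, h3⟩
        · exact Or.inl h2
        · exact Or.inr ⟨i', Or.inr (Or.inl h2), h3⟩
      · rcases hun.1 (Or.inr (hC0 h1)) with h2 | ⟨i', h2, h3⟩
        · exact Or.inl h2
        · exact Or.inr ⟨i', Or.inr (Or.inl h2), h3⟩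
      · exact Or.inr ⟨i, Or.inl rfl, h1⟩
      · exact Or.inr ⟨i', Or.inr (Or.inr h1), h2⟩
      · rcases hun.1 (Or.inr h1) with h2 | ⟨i', h2, h3⟩
        · exact Or.inl h2
        · exact Or.inr ⟨i', Or.inr (Or.inl h2), h3⟩
      · exact Or.inr ⟨i, Or.inl rfl, h1⟩
    · have key : (e ∈ C ∨ e ∈ H) → ((e ∈ C ∨ (e ∈ C0 ∨ (pr i e.2 = e.1 ∧ ∀ e0 ∈ C0, e0.2 ≠ e.2) ∨
          ∃ i' ∈ J, pr i' e.2 = e.1)) ∨ ((e ∈ H ∧ e ∉ C0) ∨ (pr i e.2 = e.1 ∧
          ∃ e0 ∈ C0, e0.2 = e.2))) := by
        rintro (h1 | h1)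
        · exact Or.inl (Or.inl h1)
        · by_cases h2 : e ∈ C0
          · exact Or.inl (Or.inr (Or.inl h2))
          · exact Or.inr (Or.inl ⟨h1, h2⟩)
      rintro (h1 | ⟨i', rfl | h1 | h1, h2⟩)
      · exact key (hun.2 (Or.inl h1))
      · by_cases h3 : ∃ e0 ∈ C0, e0.2 = e.2
        · exact Or.inr (Or.inr ⟨h2, h3⟩)
        · push Not at h3
          exact Or.inl (Or.inr (Or.inr (Or.inl ⟨h2, h3⟩)))
      · exact key (hun.2 (Or.inr ⟨i', h1, h2⟩))
      · exact Or.inl (Or.inr (Or.inr (Or.inr ⟨i', h1, h2⟩)))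
  · intro v
    have d1 : Disjoint (H \ C0) (tin pr i C0) := by
      rw [disjoint_left]
      intro e he he'
      exact h.notMem_H hc hiU (mem_tin.1 he').1 (mem_sdiff.1 he).1
    rw [filter_union, card_union_of_disjoint (disjoint_filter_filter d1)]
    by_cases hv : ∃ e ∈ C0, e.2 = v
    · obtain ⟨e, he, rfl⟩ := hv
      have h1 : ((H \ C0).filter fun e' => e'.2 = e.2) = (H.filter fun e' => e'.2 = e.2).erase e := by
        ext e'
        rw [mem_filter, mem_sdiff, mem_erase, mem_filter]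
        constructor
        · rintro ⟨⟨h2, h3⟩, h4⟩
          exact ⟨fun h5 => h3 (h5 ▸ he), h2, h4⟩
        · rintro ⟨h2, h3, h4⟩
          exact ⟨⟨h3, fun h5 => h2 (htl e' h5 e he h4)⟩, h4⟩
      have h2 : ((tin pr i C0).filter fun e' => e'.2 = e.2) = {(pr i e.2, e.2)} := by
        ext e'
        rw [mem_filter, mem_tin, mem_singleton]
        constructor
        · rintro ⟨⟨h3, -⟩, h4⟩
          rw [h4] at h3
          exact Prod.ext h3.symm h4
        · rintro rfl
          exact ⟨⟨rfl, e, he, rfl⟩, rfl⟩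
      have h3 : e ∈ H.filter fun e' => e'.2 = e.2 := mem_filter.2 ⟨hC0 he, rfl⟩
      rw [h1, h2, card_singleton, card_erase_add_one h3, h.col]
    · push Not at hv
      have h1 : ((H \ C0).filter fun e' => e'.2 = v) = H.filter fun e' => e'.2 = v := by
        ext e'
        rw [mem_filter, mem_sdiff, mem_filter]
        constructor
        · rintro ⟨⟨h2, -⟩, h4⟩
          exact ⟨h2, h4⟩
        · rintro ⟨h2, h4⟩
          exact ⟨⟨h2, fun h5 => hv e' h5 h4⟩, h4⟩
      have h2 : ((tin pr i C0).filter fun e' => e'.2 = v) = ∅ := by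
        rw [eq_empty_iff_forall_notMem]
        intro e' he'
        rw [mem_filter, mem_tin] at he'
        obtain ⟨⟨-, e0, h3, h4⟩, h5⟩ := he'
        exact hv e0 h3 (h4.trans h5)
      rw [h1, h2, card_empty, add_zero, h.col]
  · intro e he e' he' h1 h2
    rcases mem_union.1 he with he | he <;> rcases mem_union.1 he' with he' | he'
    · rw [hnm e he, hnm e' he'] at h2
      exact h.lat e (mem_sdiff.1 he).1 e' (mem_sdiff.1 he').1 h1 h2
    · exact absurd (hc.row (mem_tin.1 he').1 (hH e (mem_sdiff.1 he).1) h1).2 hiU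
    · exact absurd (hc.row (mem_tin.1 he).1 (hH e' (mem_sdiff.1 he').1) h1.symm).2 hiU
    · have h3 := (mem_tin.1 he).1
      have h4 := (mem_tin.1 he').1
      rw [← h3, ← h4] at h1
      have h5 := (hc.inj _ _ _ _ h1).2
      exact Prod.ext (by rw [← h3, ← h4, h5]) h5
  · intro e he
    exact nmo_of_notMem he
  · intro e he
    obtain ⟨h1, h2⟩ := mem_sdiff.1 he
    exact mem_union_left _ (mem_sdiff.2 ⟨h.EH h1, h2⟩)
  · exact sdiff_subset.trans h.EL
  · intro e he
    exact h.parM e (mem_sdiff.1 he).1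
  · intro e he h1
    obtain ⟨h2, h3⟩ := mem_sdiff.1 he
    have h4 := h.parU e h2
    simp only [mem_union, mem_insert, mem_sdiff, not_or] at h1 h4
    rcases h1 with ((h1 | h1 | h1) | h1) | h1
    · rw [h1] at h4
      rcases mem_union.1 hi with h5 | h5
      · exact h4.1.2 h5
      · exact h4.2 h5
    · exact h4.1.1 h1
    · exact hJE e h2 h3 h1
    · exact h4.1.2 h1.1
    · exact h4.2 h1.1
  · intro e he
    exact h.parS e (mem_sdiff.1 he).1
  · intro e he e' he'
    exact h.parI e (mem_sdiff.1 he).1 e' (mem_sdiff.1 he').1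
  · exact insert_subset hiM (union_subset h.UM hJM)
  · exact sdiff_subset.trans h.QM
  · exact sdiff_subset.trans h.RM
  · rw [disjoint_left]
    intro x hx hx'
    rw [mem_insert, mem_union] at hx
    rw [mem_sdiff, mem_insert, not_or] at hx'
    rcases hx with h1 | h1 | h1
    · exact hx'.2.1 h1
    · exact disjoint_left.1 h.UQ h1 hx'.1
    · exact hx'.2.2 h1
  · rw [disjoint_left]
    intro x hx hx'
    rw [mem_insert, mem_union] at hx
    rw [mem_sdiff, mem_insert, not_or] at hx'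
    rcases hx with h1 | h1 | h1
    · exact hx'.2.1 h1
    · exact disjoint_left.1 h.UR h1 hx'.1
    · exact hx'.2.2 h1
  · exact h.QR.mono sdiff_subset sdiff_subset

end Pool.Agent.GK71
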