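import Pool.Agent.GK71.Step

/-!
# The moves of the process: release, naming, swap, exchange
-/

open Finset

set_option autoImplicit false
set_option linter.unusedSectionVars false

namespace Pool.Agent.GK71

open Pool.Agent.Rl45 Pool.Agent.V98

variable {R V S ι : Type*} [Fintype R] [DecidableEq R] [Fintype V] [DecidableEq V]
  [Fintype S] [DecidableEq S] [DecidableEq ι]

variable {a : R → V → S} {Lc : Finset (R × V)} {pr : ι → V → R} {M : Finset ι} {N D : ℕ}
  {UU QQ RR J : Finset ι} {C H E C0 : Finset (R × V)} {nm : R × V → S} {par : R × V → ι}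
  {W : Finset S}

/-- the number of cells of a pure row with symbol `y` -/
theorem Ctx.card_cells_le (hc : Ctx a Lc pr) (i : ι) (y : S) :
    ((cells (pr i)).filter fun e => sm a e = y).card ≤
      if ∃ v, a (pr i v) v = y then 1 else 0 := by
  split_ifs with h
  · rw [card_le_one]
    intro e he e' he'
    rw [mem_filter] at he he'
    exact (hc.sec_pr i).sym e he.1 e' he'.1 (he.2.trans he'.2.symm)
  · rw [Nat.le_zero, card_eq_zero, eq_empty_iff_forall_notMem]
    intro e he
    rw [mem_filter, mem_cells] at he
    refine h ⟨e.2, ?_⟩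
    rw [he.1]
    exact he.2

theorem Sta.release_deg (hc : Ctx a Lc pr) (h : Sta a Lc pr M N D UU QQ RR C H E nm par) {i : ι}
    (hi : i ∉ UU) (y : S) : ((H ∪ cells (pr i)).filter fun e => nm e = y).card ≤
      (H.filter fun e => nm e = y).card + if ∃ v, a (pr i v) v = y then 1 else 0 := by
  rw [filter_union]
  refine (card_union_le _ _).trans (Nat.add_le_add_left ?_ _)
  refine (le_of_eq ?_).trans (hc.card_cells_le i y)
  congr 1
  refine filter_congr fun e he => ?_
  rw [h.nmE]
  intro h1
  exact h.notMem_H hc hi (mem_cells.1 he) (h.EH h1)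

/-- Release of an unused pure row. -/
theorem Sta.release (hc : Ctx a Lc pr) (h : Sta a Lc pr M N D UU QQ RR C H E nm par) {i : ι}
    (hi : i ∈ QQ ∪ RR) :
    Sta a Lc pr M N (D + 1) (insert i UU) (QQ.erase i) (RR.erase i) C (H ∪ cells (pr i)) E nm
      par := by
  have hiM : i ∈ M := by
    rcases mem_union.1 hi with h1 | h1
    · exact h.QM h1
    · exact h.RM h1
  have hiU : i ∉ UU := by
    rcases mem_union.1 hi with h1 | h1
    · exact fun h2 => disjoint_left.1 h.UQ h2 h1
    · exact fun h2 => disjoint_left.1 h.UR h2 h1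
  have hdis : Disjoint H (cells (pr i)) := by
    rw [disjoint_left]
    intro e he he'
    exact h.notMem_H hc hiU (mem_cells.1 he') he
  have hH : ∀ e ∈ H, e ∈ Lc ∪ prs pr UU := fun e he => h.un ▸ mem_union_right _ he
  refine ⟨h.cov, ?_, ?_, ?_, ?_, ?_, h.nmE, h.EH.trans subset_union_left, h.EL, h.parM, ?_,
    h.parS, h.parI, insert_subset hiM h.UM, (erase_subset _ _).trans h.QM,
    (erase_subset _ _).trans h.RM, ?_, ?_, h.QR.mono (erase_subset _ _) (erase_subset _ _)⟩
  · rw [disjoint_left]
    intro e he he'
    rcases mem_union.1 he' with h1 | h1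
    · exact disjoint_left.1 h.dj he h1
    · exact h.notMem_C hc hiU (mem_cells.1 h1) he
  · rw [← union_assoc, h.un, prs_insert, union_assoc, union_comm (prs pr UU)]
  · intro v
    rw [filter_union, card_union_of_disjoint (disjoint_filter_filter hdis), h.col,
      (hc.sec_pr i).col]
  · intro y
    refine (h.release_deg hc hiU y).trans ?_
    have := h.deg y
    split_ifs <;> omega
  · intro e he e' he' h1 h2
    rcases mem_union.1 he with he | he <;> rcases mem_union.1 he' with he' | he'
    · exact h.lat e he e' he' h1 h2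
    · exact absurd (hc.row (mem_cells.1 he') (hH e he) h1).2 hiU
    · exact absurd (hc.row (mem_cells.1 he) (hH e' he') h1.symm).2 hiU
    · exact (hc.sec_pr i).row e he e' he' h1
  · intro e he h1
    have h2 := h.parU e he
    simp only [mem_union, mem_insert, mem_erase, not_or] at h1 h2
    rcases h1 with ((h1 | h1) | h1) | h1
    · rw [h1] at h2
      rcases mem_union.1 hi with h3 | h3
      · exact h2.1.2 h3
      · exact h2.2 h3
    · exact h2.1.1 h1
    · exact h2.1.2 h1.2
    · exact h2.2 h1.2
  · rw [disjoint_left]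
    intro x hx hx'
    rw [mem_erase] at hx'
    rcases mem_insert.1 hx with h1 | h1
    · exact hx'.1 h1
    · exact disjoint_left.1 h.UQ h1 hx'.2
  · rw [disjoint_left]
    intro x hx hx'
    rw [mem_erase] at hx'
    rcases mem_insert.1 hx with h1 | h1
    · exact hx'.1 h1
    · exact disjoint_left.1 h.UR h1 hx'.2

/-- the degrees after a cell gets a new name -/
theorem update_deg {e : R × V} {z : S} (y : S) :
    (H.filter fun x => Function.update nm e z x = y).card ≤
      (H.filter fun x => nm x = y).card + if y = z then 1 else 0 := by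
  have h1 : (H.filter fun x => Function.update nm e z x = y) ⊆
      (H.filter fun x => nm x = y) ∪ (if y = z then {e} else ∅) := by
    intro x hx
    rw [mem_filter] at hx
    rw [mem_union]
    by_cases hxe : x = e
    · right
      rw [hxe, Function.update_self] at hx
      rw [if_pos hx.2.symm, hxe]
      exact mem_singleton_self e
    · left
      rw [Function.update_of_ne hxe] at hx
      exact mem_filter.2 hx
  refine (card_le_card h1).trans ((card_union_le _ _).trans (Nat.add_le_add_left ?_ _))
  split_ifs
  · rw [card_singleton]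
  · rw [card_empty]

/-- A false name for an uncovered old cell. -/
theorem Sta.name (h : Sta a Lc pr M N D UU QQ RR C H E nm par)
    {e : R × V} (he : e ∈ H) (heL : e ∈ Lc) (heE : e ∉ E) {z : S}
    (hz : ∀ e' ∈ H, e'.1 = e.1 → nm e' ≠ z) (hdz : (H.filter fun x => nm x = z).card < D)
    {j : ι} (hj : j ∈ QQ ∪ RR) (hjm : ∀ v, a (pr j v) v ≠ sm a e) :
    Sta a Lc pr M N D UU (QQ.erase j) (RR.erase j) C H (insert e E) (Function.update nm e z)
      (Function.update par e j) := by
  have hjM : j ∈ M := by
    rcases mem_union.1 hj with h1 | h1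
    · exact h.QM h1
    · exact h.RM h1
  have hjU : j ∉ UU := by
    rcases mem_union.1 hj with h1 | h1
    · exact fun h2 => disjoint_left.1 h.UQ h2 h1
    · exact fun h2 => disjoint_left.1 h.UR h2 h1
  have hup : ∀ x ∈ E, Function.update par e j x = par x := by
    intro x hx
    rw [Function.update_of_ne]
    rintro rfl
    exact heE hx
  have hparj : ∀ x ∈ E, par x ≠ j := by
    intro x hx h1
    apply h.parU x hx
    rw [h1]
    rcases mem_union.1 hj with h2 | h2
    · exact mem_union_left _ (mem_union_right _ h2)
    · exact mem_union_right _ h2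
  refine ⟨h.cov, h.dj, h.un, h.col, ?_, ?_, ?_, insert_subset he h.EH, insert_subset heL h.EL, ?_,
    ?_, ?_, ?_, h.UM, (erase_subset _ _).trans h.QM, (erase_subset _ _).trans h.RM,
    h.UQ.mono_right (erase_subset _ _), h.UR.mono_right (erase_subset _ _),
    h.QR.mono (erase_subset _ _) (erase_subset _ _)⟩
  · intro y
    refine (update_deg y).trans ?_
    have := h.deg y
    split_ifs with h1
    · rw [h1]
      omega
    · omega
  · intro x hx x' hx' h1 h2
    by_cases hxe : x = e <;> by_cases hxe' : x' = e
    · rw [hxe, hxe']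
    · rw [hxe, Function.update_self, Function.update_of_ne hxe'] at h2
      rw [hxe] at h1
      exact absurd h2.symm (hz x' hx' h1.symm)
    · rw [hxe', Function.update_self, Function.update_of_ne hxe] at h2
      rw [hxe'] at h1
      exact absurd h2 (hz x hx h1)
    · rw [Function.update_of_ne hxe, Function.update_of_ne hxe'] at h2
      exact h.lat x hx x' hx' h1 h2
  · intro x hx
    rw [mem_insert, not_or] at hx
    rw [Function.update_of_ne hx.1]
    exact h.nmE x hx.2
  · intro x hx
    rcases mem_insert.1 hx with h1 | h1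
    · rw [h1, Function.update_self]
      exact hjM
    · rw [hup x h1]
      exact h.parM x h1
  · intro x hx h1
    simp only [mem_union, mem_erase] at h1
    rcases mem_insert.1 hx with h2 | h2
    · rw [h2, Function.update_self] at h1
      rcases h1 with (h1 | h1) | h1
      · exact hjU h1
      · exact h1.1 rfl
      · exact h1.1 rfl
    · rw [hup x h2] at h1
      apply h.parU x h2
      rcases h1 with (h1 | h1) | h1
      · exact mem_union_left _ (mem_union_left _ h1)
      · exact mem_union_left _ (mem_union_right _ h1.2)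
      · exact mem_union_right _ h1.2
  · intro x hx
    rcases mem_insert.1 hx with h1 | h1
    · rw [h1, Function.update_self]
      exact hjm
    · rw [hup x h1]
      exact h.parS x h1
  · intro x hx x' hx' h1
    rcases mem_insert.1 hx with h2 | h2 <;> rcases mem_insert.1 hx' with h2' | h2'
    · rw [h2, h2']
    · rw [h2, Function.update_self, hup x' h2'] at h1
      exact absurd h1.symm (hparj x' h2')
    · rw [h2', Function.update_self, hup x h2] at h1
      exact absurd h1 (hparj x h2)
    · rw [hup x h2, hup x' h2'] at h1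
      exact h.parI x h2 x' h2' h1

/-- The swap of an uncovered old cell `e` against a covered old cell `e'` of the same column. -/
theorem Sta.swap (hc : Ctx a Lc pr) (h : Sta a Lc pr M N D UU QQ RR C H E nm par)
    {e e' : R × V} (he : e ∈ H) (heL : e ∈ Lc) (heE : e ∉ E) (he' : e' ∈ C) (heL' : e' ∈ Lc)
    (hcol : e'.2 = e.2) {X : Finset (R × V)} {N₀ : ℕ} (hX : Sec a X) (hXC : X ⊆ C)
    (he'X : e' ∈ X) (hN : N = N₀ + 1) (hC : Cov a N₀ (C \ X)) (hXr : ∀ x ∈ X, x.1 ≠ e.1)
    (hlat : ∀ x ∈ H, x.1 = e'.1 → x ≠ e → nm x ≠ sm a e')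
    (hdz : (H.filter fun x => nm x = sm a e').card < D)
    {j : ι} (hj : j ∈ QQ ∪ RR) (hjm : ∀ v, a (pr j v) v ≠ sm a e) :
    Sta a Lc pr M (N + 1) D (insert j UU) (QQ.erase j) (RR.erase j)
      (insert e (C.erase e') ∪ cells (pr j)) (insert e' (H.erase e)) E nm par := by
  have hjM : j ∈ M := by
    rcases mem_union.1 hj with h1 | h1
    · exact h.QM h1
    · exact h.RM h1
  have hjU : j ∉ UU := by
    rcases mem_union.1 hj with h1 | h1
    · exact fun h2 => disjoint_left.1 h.UQ h2 h1
    · exact fun h2 => disjoint_left.1 h.UR h2 h1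
  have heC : e ∉ C := fun h1 => disjoint_left.1 h.dj h1 he
  have he'H : e' ∉ H := fun h1 => disjoint_left.1 h.dj he' h1
  have hee' : e ≠ e' := fun h1 => heC (h1 ▸ he')
  have hH : ∀ x ∈ H, x ∈ Lc ∪ prs pr UU := fun x hx => h.un ▸ mem_union_right _ hx
  have hCL : ∀ x ∈ C, x ∈ Lc ∪ prs pr UU := fun x hx => h.un ▸ mem_union_left _ hx
  have heX : e ∉ X := fun h1 => hXr e h1 rfl
  have hcC : ∀ x ∈ cells (pr j), x ∉ C := fun x hx => h.notMem_C hc hjU (mem_cells.1 hx)
  have hcH : ∀ x ∈ cells (pr j), x ∉ H := fun x hx => h.notMem_H hc hjU (mem_cells.1 hx)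
  -- two new sections
  set Y := insert e (X.erase e') with hY
  have hYr : ∀ x ∈ Y, x ∈ Lc ∪ prs pr UU := by
    intro x hx
    rcases mem_insert.1 hx with h1 | h1
    · exact h1 ▸ hH e he
    · exact hCL x (hXC (mem_erase.1 h1).2)
  have hYc : ∀ v, (Y.filter fun x => x.2 = v).card = 1 := by
    intro v
    by_cases hv : e.2 = v
    · rw [card_eq_one]
      refine ⟨e, ?_⟩
      ext x
      rw [mem_filter, mem_singleton, hY, mem_insert, mem_erase]
      constructor
      · rintro ⟨h1 | ⟨h1, h2⟩, h3⟩
        · exact h1
        · have h4 := card_le_one.1 (hX.col v).le x (mem_filter.2 ⟨h2, h3⟩) e'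
            (mem_filter.2 ⟨he'X, hcol.trans hv⟩)
          exact absurd h4 h1
      · rintro rfl
        exact ⟨Or.inl rfl, hv⟩
    · rw [← hX.col v]
      congr 1
      ext x
      rw [mem_filter, mem_filter, hY, mem_insert, mem_erase]
      constructor
      · rintro ⟨h1 | ⟨h1, h2⟩, h3⟩
        · exact absurd (h1 ▸ h3) hv
        · exact ⟨h2, h3⟩
      · rintro ⟨h1, h2⟩
        refine ⟨Or.inr ⟨?_, h1⟩, h2⟩
        rintro rfl
        exact hv (hcol.symm.trans h2)
  have hdYj : Disjoint Y (cells (pr j)) := by
    rw [disjoint_left]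
    intro x hx hx'
    exact hjU (hc.row (mem_cells.1 hx') (hYr x hx) rfl).2
  have hcov2 : Cov a 2 (Y ∪ cells (pr j)) := by
    refine cov_of_koenig a _ _ ?_ ?_ ?_
    · intro v
      rw [filter_union, card_union_of_disjoint (disjoint_filter_filter hdYj), hYc,
        (hc.sec_pr j).col]
    · intro y
      rw [filter_union]
      refine (card_union_le _ _).trans ?_
      have h1 := hc.card_cells_le j y
      have h2 : (Y.filter fun x => sm a x = y).card ≤ 1 + if sm a e = y then 1 else 0 := by
        have h3 : (Y.filter fun x => sm a x = y) ⊆ (X.filter fun x => sm a x = y) ∪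
            (if sm a e = y then {e} else ∅) := by
          intro x hx
          rw [mem_filter, hY, mem_insert, mem_erase] at hx
          rw [mem_union, mem_filter]
          rcases hx.1 with h4 | h4
          · right
            rw [h4] at hx
            rw [if_pos hx.2, h4]
            exact mem_singleton_self e
          · exact Or.inl ⟨h4.2, hx.2⟩
        refine (card_le_card h3).trans ((card_union_le _ _).trans (Nat.add_le_add ?_ ?_))
        · rw [card_le_one]
          intro x hx x' hx'
          rw [mem_filter] at hx hx'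
          exact hX.sym x hx.1 x' hx'.1 (hx.2.trans hx'.2.symm)
        · split_ifs
          · rw [card_singleton]
          · rw [card_empty]
      by_cases hy : sm a e = y
      · rw [if_pos hy] at h2
        rw [if_neg] at h1
        · omega
        · rintro ⟨v, hv⟩
          exact hjm v (hv.trans hy.symm)
      · rw [if_neg hy] at h2
        have h3 : (if ∃ v, a (pr j v) v = y then 1 else 0) ≤ 1 := by split_ifs <;> omega
        omega
    · intro x hx x' hx' h1
      rcases mem_union.1 hx with hx | hx <;> rcases mem_union.1 hx' with hx' | hx'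
      · rw [hY, mem_insert, mem_erase] at hx hx'
        rcases hx with hx | hx <;> rcases hx' with hx' | hx'
        · rw [hx, hx']
        · exact absurd (h1.symm.trans (congrArg Prod.fst hx)) (hXr x' hx'.2)
        · exact absurd (h1.trans (congrArg Prod.fst hx')) (hXr x hx.2)
        · exact hX.row x hx.2 x' hx'.2 h1
      · exact absurd (hc.row (mem_cells.1 hx') (hYr x hx) h1).2 hjU
      · exact absurd (hc.row (mem_cells.1 hx) (hYr x' hx') h1.symm).2 hjU
      · exact (hc.sec_pr j).row x hx x' hx' h1
  have hCeq : insert e (C.erase e') ∪ cells (pr j) = (C \ X) ∪ (Y ∪ cells (pr j)) := by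
    ext x
    simp only [mem_union, mem_insert, mem_erase, mem_sdiff, hY]
    constructor
    · rintro ((h1 | ⟨h1, h2⟩) | h1)
      · exact Or.inr (Or.inl (Or.inl h1))
      · by_cases h3 : x ∈ X
        · exact Or.inr (Or.inl (Or.inr ⟨h1, h3⟩))
        · exact Or.inl ⟨h2, h3⟩
      · exact Or.inr (Or.inr h1)
    · rintro (⟨h1, h2⟩ | (h1 | ⟨h1, h2⟩) | h1)
      · refine Or.inl (Or.inr ⟨?_, h1⟩)
        rintro rfl
        exact h2 he'X
      · exact Or.inl (Or.inl h1)
      · exact Or.inl (Or.inr ⟨h1, hXC h2⟩)
      · exact Or.inr h1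
  have hcovN : Cov a (N + 1) (insert e (C.erase e') ∪ cells (pr j)) := by
    rw [hCeq, hN]
    refine hC.union hcov2 ?_
    rw [disjoint_left]
    intro x hx hx'
    obtain ⟨h1, h2⟩ := mem_sdiff.1 hx
    rcases mem_union.1 hx' with h3 | h3
    · rw [hY, mem_insert, mem_erase] at h3
      rcases h3 with h3 | h3
      · exact heC (h3 ▸ h1)
      · exact h2 h3.2
    · exact hcC x h3 h1
  have he'E : e' ∉ E := fun h1 => he'H (h.EH h1)
  refine ⟨hcovN, ?_, ?_, ?_, ?_, ?_, h.nmE, ?_, h.EL, h.parM, ?_, h.parS, h.parI,
    insert_subset hjM h.UM, (erase_subset _ _).trans h.QM, (erase_subset _ _).trans h.RM, ?_, ?_,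
    h.QR.mono (erase_subset _ _) (erase_subset _ _)⟩
  · rw [disjoint_left]
    intro x hx hx'
    simp only [mem_union, mem_insert, mem_erase] at hx hx'
    rcases hx' with h1 | ⟨h1, h2⟩
    · rcases hx with (h3 | h3) | h3
      · exact hee' (h3.symm.trans h1)
      · exact h3.1 h1
      · exact hcC x h3 (h1 ▸ he')
    · rcases hx with (h3 | h3) | h3
      · exact h1 h3
      · exact disjoint_left.1 h.dj h3.2 h2
      · exact hcH x h3 h2
  · ext x
    have hun := Finset.ext_iff.1 h.un x
    rw [prs_insert]
    simp only [mem_union, mem_insert, mem_erase] at hun ⊢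
    constructor
    · rintro (((h1 | h1) | h1) | (h1 | h1))
      · have := hun.1 (Or.inr (h1 ▸ he))
        tauto
      · have := hun.1 (Or.inl h1.2)
        tauto
      · tauto
      · have := hun.1 (Or.inl (h1 ▸ he'))
        tauto
      · have := hun.1 (Or.inr h1.2)
        tauto
    · intro h1
      by_cases h2 : x = e
      · exact Or.inl (Or.inl (Or.inl h2))
      by_cases h3 : x = e'
      · exact Or.inr (Or.inl h3)
      by_cases h4 : x ∈ cells (pr j)
      · exact Or.inl (Or.inr h4)
      · have h5 : x ∈ C ∨ x ∈ H := hun.2 (by tauto)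
        tauto
  · intro v
    by_cases hv : e.2 = v
    · have h1 : ((insert e' (H.erase e)).filter fun x => x.2 = v) =
          insert e' ((H.filter fun x => x.2 = v).erase e) := by
        ext x
        simp only [mem_filter, mem_insert, mem_erase]
        constructor
        · rintro ⟨h2 | h2, h3⟩
          · exact Or.inl h2
          · exact Or.inr ⟨h2.1, h2.2, h3⟩
        · rintro (h2 | h2)
          · rw [h2]
            exact ⟨Or.inl rfl, hcol.trans hv⟩
          · exact ⟨Or.inr ⟨h2.1, h2.2.1⟩, h2.2.2⟩
      have h2 : e' ∉ (H.filter fun x => x.2 = v).erase e := by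
        rw [mem_erase, mem_filter]
        exact fun h3 => he'H h3.2.1
      rw [h1, card_insert_of_notMem h2, card_erase_add_one (mem_filter.2 ⟨he, hv⟩), h.col]
    · rw [← h.col v]
      congr 1
      ext x
      simp only [mem_filter, mem_insert, mem_erase]
      constructor
      · rintro ⟨h2 | h2, h3⟩
        · exact absurd ((h2 ▸ h3 : e'.2 = v)) (fun h4 => hv (hcol.symm.trans h4))
        · exact ⟨h2.2, h3⟩
      · rintro ⟨h2, h3⟩
        refine ⟨Or.inr ⟨?_, h2⟩, h3⟩
        rintro rfl
        exact hv h3
  · intro y
    have h1 : ((insert e' (H.erase e)).filter fun x => nm x = y) ⊆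
        (H.filter fun x => nm x = y) ∪ (if y = sm a e' then {e'} else ∅) := by
      intro x hx
      simp only [mem_filter, mem_insert, mem_erase] at hx
      rw [mem_union, mem_filter]
      rcases hx.1 with h2 | h2
      · right
        have h3 : y = sm a e' := by
          rw [← hx.2, h2]
          exact h.nmE e' he'E
        rw [if_pos h3, h2]
        exact mem_singleton_self e'
      · exact Or.inl ⟨h2.2, hx.2⟩
    refine (card_le_card h1).trans ((card_union_le _ _).trans ?_)
    have h2 := h.deg y
    split_ifs with h3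
    · rw [card_singleton, h3]
      omega
    · rw [card_empty]
      omega
  · intro x hx x' hx' h1 h2
    simp only [mem_insert, mem_erase] at hx hx'
    rcases hx with hx | hx <;> rcases hx' with hx' | hx'
    · rw [hx, hx']
    · exfalso
      refine hlat x' hx'.2 ?_ hx'.1 ?_
      · rw [← h1, hx]
      · rw [← h2, hx]
        exact h.nmE e' he'E
    · exfalso
      refine hlat x hx.2 ?_ hx.1 ?_
      · rw [h1, hx']
      · rw [h2, hx']
        exact h.nmE e' he'E
    · exact h.lat x hx.2 x' hx'.2 h1 h2
  · intro x hx
    rw [mem_insert, mem_erase]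
    refine Or.inr ⟨?_, h.EH hx⟩
    rintro rfl
    exact heE hx
  · intro x hx h1
    have h2 := h.parU x hx
    simp only [mem_union, mem_insert, mem_erase, not_or] at h1 h2
    rcases h1 with ((h1 | h1) | h1) | h1
    · rw [h1] at h2
      rcases mem_union.1 hj with h3 | h3
      · exact h2.1.2 h3
      · exact h2.2 h3
    · exact h2.1.1 h1
    · exact h2.1.2 h1.2
    · exact h2.2 h1.2
  · rw [disjoint_left]
    intro x hx hx'
    rw [mem_erase] at hx'
    rcases mem_insert.1 hx with h1 | h1
    · exact hx'.1 h1
    · exact disjoint_left.1 h.UQ h1 hx'.2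
  · rw [disjoint_left]
    intro x hx hx'
    rw [mem_erase] at hx'
    rcases mem_insert.1 hx with h1 | h1
    · exact hx'.1 h1
    · exact disjoint_left.1 h.UR h1 hx'.2

end Pool.Agent.GK71
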