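import Pool.Agent.GK71.Exch
import Pool.Agent.V98.Conf

/-!
# The exchange step for a closed set of cells
-/

open Finset

set_option autoImplicit false
set_option linter.unusedSectionVars false

namespace Pool.Agent.GK71

open Pool.Agent.Rl45 Pool.Agent.V98

variable {R V S ι : Type*} [Fintype R] [DecidableEq R] [Fintype V] [DecidableEq V]
  [Fintype S] [DecidableEq S] [DecidableEq ι]

variable {a : R → V → S} {Lc : Finset (R × V)} {pr : ι → V → R} {M : Finset ι} {N D : ℕ}
  {UU QQ RR J : Finset ι} {C H E C0 : Finset (R × V)} {nm : R × V → S} {par : R × V → ι}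
  {W : Finset S}

/-- The exchange. -/
theorem Sta.exch (hc : Ctx a Lc pr) (h : Sta a Lc pr M N D UU QQ RR C H E nm par)
    (hEW : ∀ e ∈ E, nm e ∈ W) (hdW : ∀ y ∉ W, (H.filter fun e => nm e = y).card < D)
    {i j : ι} (hi : i ∈ QQ) (hj : j ∈ QQ) (hij : i ≠ j)
    (hiW : ∀ z ∈ W, ∃ v, a (pr i v) v = z) (hC0 : C0 ⊆ H)
    (hCS : CSet (hed nm (ndw a W (pr i))) (sl H nm (ndw a W (pr i)) D) C0)
    (hjm : ∀ e ∈ C0, nm e ∉ W → ∀ v, a (pr j v) v ≠ nm e) :
    ∃ J : Finset ι, i ∉ J ∧ j ∈ J ∧ J ∩ QQ = {j} ∧ J ∩ RR = ∅ ∧
      Sta a Lc pr M (N + (1 + J.card)) D (insert i (UU ∪ J)) (QQ \ insert i J) (RR \ insert i J)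
      (C ∪ fam pr i J C0) ((H \ C0) ∪ tin pr i C0) (E \ C0) (nmo a nm (E \ C0)) par ∧
      (∀ e ∈ H \ C0, nmo a nm (E \ C0) e = nm e) ∧
      ∀ y, y ∉ W → (((H \ C0) ∪ tin pr i C0).filter fun e => nmo a nm (E \ C0) e = y).card = D →
        ∀ y', y' ∉ W →
          (((H \ C0) ∪ tin pr i C0).filter fun e => nmo a nm (E \ C0) e = y').card = D →
          y = y' := by
  classical
  have hsi := hc.sec i
  have hiU : i ∉ UU := fun h2 => disjoint_left.1 h.UQ h2 hi
  have hjU : j ∉ UU := fun h2 => disjoint_left.1 h.UQ h2 hj
  have hnm : ∀ e ∈ H \ C0, nmo a nm (E \ C0) e = nm e := by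
    intro e he
    by_cases h1 : e ∈ E
    · exact nmo_of_mem (mem_sdiff.2 ⟨h1, (mem_sdiff.1 he).2⟩)
    · rw [nmo_of_notMem (fun h2 => h1 (mem_sdiff.1 h2).1), h.nmE e h1]
  have hparQ : ∀ e ∈ E, par e ∉ QQ := fun e he h1 =>
    h.parU e he (mem_union_left _ (mem_union_right _ h1))
  have hparR : ∀ e ∈ E, par e ∉ RR := fun e he h1 =>
    h.parU e he (mem_union_right _ h1)
  have hparU : ∀ e ∈ E, par e ∉ UU := fun e he h1 =>
    h.parU e he (mem_union_left _ (mem_union_left _ h1))
  set J1 := (E ∩ C0).image par with hJ1
  have hJ1c : J1.card = (E ∩ C0).card := by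
    rw [hJ1, card_image_of_injOn]
    intro e he e' he' h1
    exact h.parI e (mem_inter.1 (mem_coe.1 he)).1 e' (mem_inter.1 (mem_coe.1 he')).1 h1
  have hjJ1 : j ∉ J1 := by
    intro h1
    obtain ⟨e, he, h2⟩ := mem_image.1 h1
    exact hparQ e (mem_inter.1 he).1 (h2 ▸ hj)
  have hiJ1 : i ∉ J1 := by
    intro h1
    obtain ⟨e, he, h2⟩ := mem_image.1 h1
    exact hparQ e (mem_inter.1 he).1 (h2 ▸ hi)
  have hiJ : i ∉ insert j J1 := by
    rw [mem_insert, not_or]
    exact ⟨hij, hiJ1⟩
  have hJc : (insert j J1).card = (E ∩ C0).card + 1 := by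
    rw [card_insert_of_notMem hjJ1, hJ1c]
  -- the number of cells of `C0` with a given name
  have hone : ∀ y, (C0.filter fun e => e ∉ E ∧ nm e = y).card ≤ 1 := by
    intro y
    rw [card_le_one]
    intro e he e' he'
    rw [mem_filter] at he he'
    refine hCS.hdi e he.1 e' he'.1 ?_
    unfold hed
    rw [he.2.2, he'.2.2]
  have hsym : ∀ y, ((fam pr i (insert j J1) C0).filter fun e => sm a e = y).card ≤
      1 + (insert j J1).card := by
    intro y
    have e1 : ((fam pr i (insert j J1) C0).filter fun e => sm a e = y).card ≤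
        ((C0.filter fun e => e ∈ E ∧ sm a e = y).card +
          (C0.filter fun e => e ∉ E ∧ nm e = y).card) +
        ((tout pr i C0).filter fun e => sm a e = y).card +
        ((prs pr (insert j J1)).filter fun e => sm a e = y).card := by
      unfold fam
      rw [filter_union, filter_union]
      refine (card_union_le _ _).trans (Nat.add_le_add_right ?_ _)
      refine (card_union_le _ _).trans (Nat.add_le_add_right ?_ _)
      refine (card_le_card ?_).trans (card_union_le _ _)
      intro e he
      rw [mem_filter] at he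
      rw [mem_union, mem_filter, mem_filter]
      by_cases h1 : e ∈ E
      · exact Or.inl ⟨he.1, h1, he.2⟩
      · exact Or.inr ⟨he.1, h1, (h.nmE e h1).trans he.2⟩
    have e2 : ((tout pr i C0).filter fun e => sm a e = y).card ≤ 1 := by
      rw [card_le_one]
      intro e he e' he'
      rw [mem_filter, mem_tout] at he he'
      refine (hc.sec_pr i).sym e (mem_cells.2 he.1.1) e' (mem_cells.2 he'.1.1) ?_
      rw [he.2, he'.2]
    have e3 : ((prs pr (insert j J1)).filter fun e => sm a e = y).card ≤
        ((E ∩ C0).filter fun e => sm a e ≠ y).card +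
          (if ∃ v, a (pr j v) v = y then 1 else 0) := by
      refine (hc.sym_prs _ y).trans ?_
      have h1 : ((insert j J1).filter fun i => ∃ v, a (pr i v) v = y) ⊆
          (((E ∩ C0).filter fun e => sm a e ≠ y).image par) ∪
            (if ∃ v, a (pr j v) v = y then {j} else ∅) := by
        intro x hx
        rw [mem_filter, mem_insert] at hx
        rw [mem_union]
        rcases hx.1 with h2 | h2
        · right
          rw [h2] at hx
          rw [if_pos hx.2, h2]
          exact mem_singleton_self j
        · left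
          obtain ⟨e, he, h3⟩ := mem_image.1 h2
          rw [mem_image]
          refine ⟨e, mem_filter.2 ⟨he, ?_⟩, h3⟩
          intro h4
          obtain ⟨v, hv⟩ := hx.2
          rw [← h3] at hv
          exact h.parS e (mem_inter.1 he).1 v (hv.trans h4.symm)
      refine (card_le_card h1).trans ((card_union_le _ _).trans ?_)
      refine Nat.add_le_add card_image_le ?_
      split_ifs
      · rw [card_singleton]
      · rw [card_empty]
    have e4 : (C0.filter fun e => e ∈ E ∧ sm a e = y).card +
        ((E ∩ C0).filter fun e => sm a e ≠ y).card = (E ∩ C0).card := by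
      rw [← card_union_of_disjoint]
      · congr 1
        ext e
        simp only [mem_union, mem_filter, mem_inter]
        tauto
      · rw [disjoint_left]
        intro e he he'
        exact (mem_filter.1 he').2 (mem_filter.1 he).2.2
    have e5 := hone y
    rw [hJc]
    -- the remaining cases
    by_cases hex : ∃ e ∈ C0, e ∉ E ∧ nm e = y
    · obtain ⟨e, he, heE, hey⟩ := hex
      by_cases hyW : y ∈ W
      · have e6 : ((tout pr i C0).filter fun e => sm a e = y).card = 0 := by
          rw [card_eq_zero, eq_empty_iff_forall_notMem]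
          intro e' he'
          rw [mem_filter, mem_tout] at he'
          have h1 : hed nm (ndw a W (pr i)) e = some e'.2 := by
            unfold hed
            rw [ndw_eq_some hsi]
            refine ⟨hey ▸ hyW, ?_⟩
            rw [he'.1.1, hey]
            exact he'.2
          obtain ⟨e'', h2, h3⟩ := hCS.cl e he e'.2 h1
          exact he'.1.2 e'' h2 h3
        have e7 : (if ∃ v, a (pr j v) v = y then 1 else 0) ≤ 1 := by
          split_ifs
          · exact le_refl 1
          · exact Nat.zero_le 1
        omega
      · have e6 : (if ∃ v, a (pr j v) v = y then 1 else 0) = 0 := by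
          rw [if_neg]
          rintro ⟨v, hv⟩
          exact hjm e he (hey ▸ hyW) v (hv.trans hey.symm)
        omega
    · have e6 : (C0.filter fun e => e ∉ E ∧ nm e = y).card = 0 := by
        rw [card_eq_zero, eq_empty_iff_forall_notMem]
        intro e he
        rw [mem_filter] at he
        exact hex ⟨e, he.1, he.2⟩
      have e7 : (if ∃ v, a (pr j v) v = y then 1 else 0) ≤ 1 := by
        split_ifs
        · exact le_refl 1
        · exact Nat.zero_le 1
      omega
  -- the degrees
  have hsplit : ∀ y, (((H \ C0) ∪ tin pr i C0).filter fun e => nmo a nm (E \ C0) e = y).card ≤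
      ((H \ C0).filter fun e => nm e = y).card + ((tin pr i C0).filter fun e => sm a e = y).card := by
    intro y
    rw [filter_union]
    refine (card_union_le _ _).trans (Nat.add_le_add (le_of_eq ?_) (le_of_eq ?_))
    · congr 1
      refine filter_congr fun e he => ?_
      rw [hnm e he]
    · congr 1
      refine filter_congr fun e he => ?_
      rw [nmo_of_notMem]
      intro h1
      exact h.notMem_H hc hiU (mem_tin.1 he).1 (h.EH (mem_sdiff.1 h1).1)
  have htin : ∀ y, ((tin pr i C0).filter fun e => sm a e = y).card ≤ 1 := by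
    intro y
    rw [card_le_one]
    intro e he e' he'
    rw [mem_filter, mem_tin] at he he'
    refine (hc.sec_pr i).sym e (mem_cells.2 he.1.1) e' (mem_cells.2 he'.1.1) ?_
    rw [he.2, he'.2]
  have hsub : ∀ y, ((H \ C0).filter fun e => nm e = y).card ≤ (H.filter fun e => nm e = y).card :=
    fun y => card_le_card (filter_subset_filter _ sdiff_subset)
  have hdeg : ∀ y, (((H \ C0) ∪ tin pr i C0).filter fun e => nmo a nm (E \ C0) e = y).card ≤ D := by
    intro y
    refine (hsplit y).trans ?_
    have h1 := hsub y
    have h2 := h.deg y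
    have h3 := htin y
    by_cases hyW : y ∈ W
    · rcases Nat.eq_zero_or_pos (((tin pr i C0).filter fun e => sm a e = y).card) with h0 | h0
      · omega
      · obtain ⟨e, he⟩ := card_pos.1 h0
        rw [mem_filter, mem_tin] at he
        obtain ⟨⟨h4, e0, h5, h6⟩, h7⟩ := he
        have h8 : a (pr i e0.2) e0.2 = y := by
          rw [h6, h4]
          exact h7
        by_cases hex : ∃ e' ∈ C0, hed nm (ndw a W (pr i)) e' = some e0.2
        · obtain ⟨e', h9, h10⟩ := hex
          unfold hed at h10
          rw [ndw_eq_some hsi] at h10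
          have h11 : nm e' = y := h10.2.symm.trans h8
          have h12 : ((H \ C0).filter fun e => nm e = y).card <
              (H.filter fun e => nm e = y).card := by
            refine card_lt_card ⟨filter_subset_filter _ sdiff_subset, fun h13 => ?_⟩
            have h14 := h13 (mem_filter.2 ⟨hC0 h9, h11⟩)
            exact (mem_sdiff.1 (mem_filter.1 h14).1).2 h9
          omega
        · push Not at hex
          have h9 := hCS.st e0 h5 hex
          have h12 : (H.filter fun e => ndw a W (pr i) (nm e) = some e0.2) =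
              H.filter fun e => nm e = y := by
            refine filter_congr fun e _ => ?_
            rw [ndw_eq_some hsi, h8]
            exact ⟨fun h13 => h13.2.symm, fun h13 => ⟨h13 ▸ hyW, h13.symm⟩⟩
          unfold sl at h9
          rw [h12] at h9
          omega
    · have := hdW y hyW
      omega
  refine ⟨insert j J1, hiJ, mem_insert_self j J1, ?_, ?_, ?_, hnm, ?_⟩
  · ext x
    rw [mem_inter, mem_insert, mem_singleton]
    constructor
    · rintro ⟨h1 | h1, h2⟩
      · exact h1
      · obtain ⟨e, he, h3⟩ := mem_image.1 h1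
        exact absurd (h3 ▸ h2) (hparQ e (mem_inter.1 he).1)
    · rintro rfl
      exact ⟨Or.inl rfl, hj⟩
  · rw [eq_empty_iff_forall_notMem]
    intro x hx
    rw [mem_inter, mem_insert] at hx
    rcases hx.1 with h1 | h1
    · exact disjoint_left.1 h.QR hj (h1 ▸ hx.2)
    · obtain ⟨e, he, h3⟩ := mem_image.1 h1
      exact hparR e (mem_inter.1 he).1 (h3 ▸ hx.2)
  · refine h.absorb hc (mem_union_left _ hi) ?_ hiJ ?_ hC0 ?_ hCS.rb hCS.tl hsym hdeg
    · intro x hx
      rcases mem_insert.1 hx with h1 | h1
      · exact h1 ▸ h.QM hj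
      · obtain ⟨e, he, h3⟩ := mem_image.1 h1
        exact h3 ▸ h.parM e (mem_inter.1 he).1
    · rw [disjoint_left]
      intro x hx hx'
      rcases mem_insert.1 hx with h1 | h1
      · exact hjU (h1 ▸ hx')
      · obtain ⟨e, he, h3⟩ := mem_image.1 h1
        exact hparU e (mem_inter.1 he).1 (h3 ▸ hx')
    · intro e he heC h1
      rcases mem_insert.1 h1 with h2 | h2
      · exact hparQ e he (h2 ▸ hj)
      · obtain ⟨e', he', h3⟩ := mem_image.1 h2
        have h4 := h.parI e' (mem_inter.1 he').1 e he h3
        exact heC (h4 ▸ (mem_inter.1 he').2)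
  · -- at most one name outside `W` becomes tight
    have hkey : ∀ y, y ∉ W →
        (((H \ C0) ∪ tin pr i C0).filter fun e => nmo a nm (E \ C0) e = y).card = D →
        ∃ e0 ∈ C0, a (pr i e0.2) e0.2 = y ∧ ∀ e ∈ C0, hed nm (ndw a W (pr i)) e ≠ some e0.2 := by
      intro y hy h1
      have h2 := hsplit y
      have h3 := hsub y
      have h4 := hdW y hy
      have h0 : 0 < ((tin pr i C0).filter fun e => sm a e = y).card := by omega
      obtain ⟨e, he⟩ := card_pos.1 h0
      rw [mem_filter, mem_tin] at he
      obtain ⟨⟨h4, e0, h5, h6⟩, h7⟩ := he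
      have h8 : a (pr i e0.2) e0.2 = y := by
        rw [h6, h4]
        exact h7
      refine ⟨e0, h5, h8, fun e' _ h9 => ?_⟩
      unfold hed at h9
      rw [ndw_eq_some hsi] at h9
      exact hy (h8 ▸ h9.2 ▸ h9.1)
    intro y hy h1 y' hy' h1'
    obtain ⟨e0, h2, h3, h4⟩ := hkey y hy h1
    obtain ⟨e0', h2', h3', h4'⟩ := hkey y' hy' h1'
    by_contra hne
    have h5 : e0.2 ≠ e0'.2 := by
      intro h6
      exact hne (by rw [← h3, ← h3', h6])
    -- counting
    have h6 : C0.card ≤ (insert none (((C0.image Prod.snd).erase e0.2).erase e0'.2 |>.image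
        (some : V → Option V))).card := by
      refine card_le_card_of_injOn (hed nm (ndw a W (pr i))) ?_ ?_
      · intro e he
        rw [mem_coe, mem_insert, mem_image]
        rcases h7 : hed nm (ndw a W (pr i)) e with _ | v
        · exact Or.inl rfl
        · right
          refine ⟨v, ?_, rfl⟩
          rw [mem_erase, mem_erase]
          obtain ⟨e', h8, h9⟩ := hCS.cl e he v h7
          refine ⟨?_, ?_, mem_image.2 ⟨e', h8, h9⟩⟩
          · rintro rfl
            exact h4' e he h7
          · rintro rfl
            exact h4 e he h7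
      · intro e he e' he' h7
        exact hCS.hdi e he e' he' h7
    have h7 : (C0.image Prod.snd).card = C0.card :=
      card_image_of_injOn fun e he e' he' h8 => hCS.tl e he e' he' h8
    have h8 := card_insert_le (none : Option V) ((((C0.image Prod.snd).erase e0.2).erase e0'.2).image
        (some : V → Option V))
    have h9 : ((((C0.image Prod.snd).erase e0.2).erase e0'.2).image
        (some : V → Option V)).card ≤ (((C0.image Prod.snd).erase e0.2).erase e0'.2).card :=
      card_image_le
    have h10 : e0.2 ∈ C0.image Prod.snd := mem_image_of_mem _ h2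
    have h11 : e0'.2 ∈ (C0.image Prod.snd).erase e0.2 :=
      mem_erase.2 ⟨h5.symm, mem_image_of_mem _ h2'⟩
    have h12 := card_erase_add_one h10
    have h13 := card_erase_add_one h11
    omega

end Pool.Agent.GK71
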