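import Pool.Agent.GK71.Moves

/-!
# The exchange in the form used by the driver
-/

open Finset

set_option autoImplicit false
set_option linter.unusedSectionVars false

namespace Pool.Agent.GK71

open Pool.Agent.Rl45 Pool.Agent.V98

variable {R V S ι : Type*} [Fintype R] [DecidableEq R] [Fintype V] [DecidableEq V]
  [Fintype S] [DecidableEq S] [DecidableEq ι]

variable {a : R → V → S} {Lc : Finset (R × V)} {pr : ι → V → R} {M : Finset ι} {N D : ℕ}
  {UU QQ RR J : Finset ι} {C H E C0 : Finset (R × V)} {nm : R × V → S} {par : R × V → ι}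
  {W : Finset S}

/-- The exchange: the cells of a closed set `C0` are covered; at most three rows of the pool are
used. -/
theorem Sta.exchange (hc : Ctx a Lc pr) (h : Sta a Lc pr M N D UU QQ RR C H E nm par)
    (hEW : ∀ e ∈ E, nm e ∈ W) (hdW : ∀ y ∉ W, (H.filter fun e => nm e = y).card < D)
    {i : ι} (hi : i ∈ QQ) (hiW : ∀ z ∈ W, ∃ v, a (pr i v) v = z) (hC0 : C0 ⊆ H)
    (hCS : CSet (hed nm (ndw a W (pr i))) (sl H nm (ndw a W (pr i)) D) C0)
    (h3 : 3 < QQ.card)
    (hpool : ∀ z ∉ W, 3 < (FZ86.miss (fun j v => a (pr j v) v) QQ z).card) :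
    ∃ (N' D' : ℕ) (UU' QQ' : Finset ι) (C' H' : Finset (R × V)),
      Sta a Lc pr M N' D' UU' QQ' RR C' H' (E \ C0) (nmo a nm (E \ C0)) par ∧
      D ≤ D' ∧ (∀ y ∉ W, (H'.filter fun e => nmo a nm (E \ C0) e = y).card < D') ∧
      QQ' ⊆ QQ ∧ QQ.card ≤ QQ'.card + 3 ∧ H' ∩ Lc = (H \ C0) ∩ Lc ∧
      ∀ e ∈ H' ∩ Lc, nmo a nm (E \ C0) e = nm e := by
  classical
  -- the second row
  have hj : ∃ j ∈ QQ, i ≠ j ∧ ∀ e ∈ C0, nm e ∉ W → ∀ v, a (pr j v) v ≠ nm e := by
    by_cases hex : ∃ e ∈ C0, nm e ∉ W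
    · obtain ⟨e, he, heW⟩ := hex
      have h1 : 0 < ((FZ86.miss (fun j v => a (pr j v) v) QQ (nm e)).erase i).card := by
        have h2 := hpool (nm e) heW
        have h3 := pred_card_le_card_erase (s := FZ86.miss (fun j v => a (pr j v) v) QQ (nm e))
          (a := i)
        omega
      obtain ⟨j, hj⟩ := card_pos.1 h1
      rw [mem_erase, FZ86.mem_miss] at hj
      refine ⟨j, hj.2.1, fun h4 => hj.1 h4.symm, ?_⟩
      intro e' he' he'W v hv
      have h5 : e' = e := by
        refine hCS.hdi e' he' e he ?_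
        unfold hed
        rw [ndw_of_notMem he'W, ndw_of_notMem heW]
      rw [h5] at hv
      exact hj.2.2 v hv
    · have h1 : 0 < (QQ.erase i).card := by
        have h3 := pred_card_le_card_erase (s := QQ) (a := i)
        omega
      obtain ⟨j, hj⟩ := card_pos.1 h1
      rw [mem_erase] at hj
      refine ⟨j, hj.2, fun h4 => hj.1 h4.symm, ?_⟩
      intro e' he' he'W
      exact absurd ⟨e', he', he'W⟩ hex
  obtain ⟨j, hj, hij, hjm⟩ := hj
  obtain ⟨J, hiJ, hjJ, hJQ, hJR, hS, hnm, htight⟩ :=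
    h.exch hc hEW hdW hi hj hij hiW hC0 hCS hjm
  have hiU : i ∉ UU := fun h2 => disjoint_left.1 h.UQ h2 hi
  have hiR : i ∉ RR := fun h2 => disjoint_left.1 h.QR hi h2
  have hRR : RR \ insert i J = RR := by
    rw [Finset.sdiff_eq_self_iff_disjoint, disjoint_left]
    intro x hx hx'
    rcases mem_insert.1 hx' with h1 | h1
    · exact hiR (h1 ▸ hx)
    · have h2 : x ∈ J ∩ RR := mem_inter.2 ⟨h1, hx⟩
      rw [hJR] at h2
      exact notMem_empty x h2
  have hQQ : QQ \ insert i J = (QQ.erase i).erase j := by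
    ext x
    rw [mem_sdiff, mem_insert, mem_erase, mem_erase, not_or]
    constructor
    · rintro ⟨h1, h2, h3⟩
      refine ⟨?_, h2, h1⟩
      rintro rfl
      exact h3 hjJ
    · rintro ⟨h1, h2, h3⟩
      refine ⟨h3, h2, fun h4 => h1 ?_⟩
      have h5 : x ∈ J ∩ QQ := mem_inter.2 ⟨h4, h3⟩
      rw [hJQ, mem_singleton] at h5
      exact h5
  have hLtin : ∀ e ∈ tin pr i C0, e ∉ Lc := by
    intro e he heL
    exact hc.prL i e.2 e heL (mem_tin.1 he).1.symm
  have hLc : ((H \ C0) ∪ tin pr i C0) ∩ Lc = (H \ C0) ∩ Lc := by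
    ext x
    rw [mem_inter, mem_inter, mem_union]
    constructor
    · rintro ⟨h1 | h1, h2⟩
      · exact ⟨h1, h2⟩
      · exact absurd h2 (hLtin x h1)
    · rintro ⟨h1, h2⟩
      exact ⟨Or.inl h1, h2⟩
  rw [hRR, hQQ] at hS
  have hc1 := pred_card_le_card_erase (s := QQ) (a := i)
  have hc2 := pred_card_le_card_erase (s := QQ.erase i) (a := j)
  by_cases hex : ∃ y, y ∉ W ∧
      (((H \ C0) ∪ tin pr i C0).filter fun e => nmo a nm (E \ C0) e = y).card = D
  · -- a release is necessary
    obtain ⟨y0, hy0, hy0D⟩ := hex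
    have h1 : 0 < (((FZ86.miss (fun j v => a (pr j v) v) QQ y0).erase i).erase j).card := by
      have h2 := hpool y0 hy0
      have h3 := pred_card_le_card_erase (s := FZ86.miss (fun j v => a (pr j v) v) QQ y0)
        (a := i)
      have h4 := pred_card_le_card_erase
        (s := (FZ86.miss (fun j v => a (pr j v) v) QQ y0).erase i) (a := j)
      omega
    obtain ⟨j2, hj2⟩ := card_pos.1 h1
    rw [mem_erase, mem_erase, FZ86.mem_miss] at hj2
    obtain ⟨hj2j, hj2i, hj2Q, hj2m⟩ := hj2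
    have hj2Q' : j2 ∈ (QQ.erase i).erase j :=
      mem_erase.2 ⟨hj2j, mem_erase.2 ⟨hj2i, hj2Q⟩⟩
    have hj2R : j2 ∉ RR := fun h2 => disjoint_left.1 h.QR hj2Q h2
    have hj2U : j2 ∉ insert i (UU ∪ J) := fun h2 => disjoint_left.1 hS.UQ h2 hj2Q'
    have hrel := hS.release hc (mem_union_left _ hj2Q')
    rw [erase_eq_of_notMem hj2R] at hrel
    have hLcell : ∀ e ∈ cells (pr j2), e ∉ Lc := by
      intro e he heL
      exact hc.prL j2 e.2 e heL (mem_cells.1 he).symm
    have hLc2 : (((H \ C0) ∪ tin pr i C0) ∪ cells (pr j2)) ∩ Lc = (H \ C0) ∩ Lc := by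
      rw [← hLc]
      ext x
      rw [mem_inter, mem_inter, mem_union]
      constructor
      · rintro ⟨h1 | h1, h2⟩
        · exact ⟨h1, h2⟩
        · exact absurd h2 (hLcell x h1)
      · rintro ⟨h1, h2⟩
        exact ⟨Or.inl h1, h2⟩
    have hc3 := pred_card_le_card_erase (s := (QQ.erase i).erase j) (a := j2)
    refine ⟨_, _, _, _, _, _, hrel, Nat.le_succ D, ?_, ?_, by omega, hLc2, ?_⟩
    · intro y hy
      have h4 := hS.release_deg hc hj2U y
      by_cases hyy : y = y0
      · have h5 : (if ∃ v, a (pr j2 v) v = y then 1 else 0) = 0 := by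
          rw [if_neg]
          rintro ⟨v, hv⟩
          exact hj2m v (hv.trans hyy)
        have h6 := hS.deg y
        omega
      · have h5 : (if ∃ v, a (pr j2 v) v = y then 1 else 0) ≤ 1 := by split_ifs <;> omega
        have h6 := hS.deg y
        have h7 : (((H \ C0) ∪ tin pr i C0).filter fun e =>
            nmo a nm (E \ C0) e = y).card ≠ D := by
          intro h8
          exact hyy (htight y hy h8 y0 hy0 hy0D)
        omega
    · exact ((erase_subset _ _).trans (erase_subset _ _)).trans (erase_subset _ _)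
    · intro e he
      rw [hLc2] at he
      exact hnm e (mem_inter.1 he).1
  · push Not at hex
    refine ⟨_, _, _, _, _, _, hS, le_refl D, ?_, ?_, by omega, hLc, ?_⟩
    · intro y hy
      exact lt_of_le_of_ne (hS.deg y) (hex y hy)
    · exact (erase_subset _ _).trans (erase_subset _ _)
    · intro e he
      rw [hLc] at he
      exact hnm e (mem_inter.1 he).1

end Pool.Agent.GK71
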